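import Mathlib

/-! A net content and its behaviour along increasing unions; compact subsets of analytic sets. -/

set_option linter.unusedSectionVars false

open MeasureTheory Measure Set Metric Filter Topology
open scoped ENNReal NNReal

namespace Pool.Agent.Helper28.TP

/-- A family of cells indexed by `S`, each with a level; two cells that meet are nested. -/
structure Net (S X : Type*) where
  lev : S → ℕ
  cell : S → Set X
  same : ∀ p q x, x ∈ cell p → x ∈ cell q → lev p = lev q → p = q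
  nest : ∀ p q x, x ∈ cell p → x ∈ cell q → lev p ≤ lev q → cell q ⊆ cell p

namespace Net

variable {S X : Type*} (N : Net S X)

/-- the set covered by a family of cells -/
def cov (U : Set S) : Set X := {x | ∃ q ∈ U, x ∈ N.cell q}

/-- the maximal cells of a family -/
def top (U : Set S) : Set S := {q | q ∈ U ∧ ∀ p ∈ U, ∀ x, x ∈ N.cell p → x ∈ N.cell q → N.lev q ≤ N.lev p}

lemma top_subset (U : Set S) : N.top U ⊆ U := fun _ h => h.1

lemma exists_top (U : Set S) (x : X) (q : S) (hq : q ∈ U) (hx : x ∈ N.cell q) :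
    ∃ p ∈ N.top U, x ∈ N.cell p ∧ N.lev p ≤ N.lev q := by
  classical
  have hne : ∃ k, ∃ p ∈ U, x ∈ N.cell p ∧ N.lev p = k := ⟨N.lev q, q, hq, hx, rfl⟩
  obtain ⟨p, hpU, hxp, hpk⟩ := Nat.find_spec hne
  refine ⟨p, ⟨hpU, fun p' hp' y hy' hy => ?_⟩, hxp, ?_⟩
  · by_contra hlt
    push Not at hlt
    have hsub := N.nest p' p y hy' hy hlt.le
    have h1 : Nat.find hne ≤ N.lev p' := Nat.find_min' hne ⟨p', hp', hsub hxp, rfl⟩
    omega
  · rw [hpk]
    exact Nat.find_min' hne ⟨q, hq, hx, rfl⟩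

variable [MeasurableSpace S] (W : Measure S)

/-- the content -/
noncomputable def M (E : Set X) : ℝ≥0∞ := ⨅ (U : Set S) (_ : E ⊆ N.cov U), W U

lemma M_le {E : Set X} {U : Set S} (h : E ⊆ N.cov U) : N.M W E ≤ W U :=
  iInf₂_le U h

lemma M_mono {E F : Set X} (h : E ⊆ F) : N.M W E ≤ N.M W F :=
  le_iInf₂ fun _ hU => N.M_le W (h.trans hU)

lemma exists_cover {E : Set X} {c : ℝ≥0∞} (h : N.M W E < c) : ∃ U : Set S, E ⊆ N.cov U ∧ W U < c := by
  unfold M at h
  simp only [iInf_lt_iff] at h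
  obtain ⟨U, hU, h⟩ := h
  exact ⟨U, hU, h⟩

/-- the key inequality -/
lemma key [DiscreteMeasurableSpace S] {A B : Set S} {E : Set X} (hA : E ⊆ N.cov A) (hB : E ⊆ N.cov B) :
    W (N.top (A ∪ B)) + N.M W E ≤ W A + W B := by
  set T := N.top (A ∪ B) with hT
  set C : Set S := ((A ∪ B) \ T) ∪ (A ∩ B) with hC
  have hcov : E ⊆ N.cov C := by
    intro x hx
    obtain ⟨a, ha, hxa⟩ := hA hx
    obtain ⟨b, hb, hxb⟩ := hB hx
    rcases lt_trichotomy (N.lev a) (N.lev b) with h | h | h
    · refine ⟨b, Or.inl ⟨Or.inr hb, fun hbT => ?_⟩, hxb⟩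
      have := hbT.2 a (Or.inl ha) x hxa hxb
      omega
    · have hab := N.same a b x hxa hxb h
      subst hab
      exact ⟨a, Or.inr ⟨ha, hb⟩, hxa⟩
    · refine ⟨a, Or.inl ⟨Or.inl ha, fun haT => ?_⟩, hxa⟩
      have := haT.2 b (Or.inr hb) x hxb hxa
      omega
  have h1 : W T + W C = W (T ∪ C) + W (T ∩ C) := (measure_union_add_inter T (MeasurableSet.of_discrete)).symm
  have h2 : T ∪ C ⊆ A ∪ B := by
    rintro q (h | h | h)
    · exact h.1
    · exact h.1
    · exact Or.inl h.1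
  have h3 : T ∩ C ⊆ A ∩ B := by
    rintro q ⟨h, h' | h'⟩
    · exact absurd h h'.2
    · exact h'
  calc W T + N.M W E ≤ W T + W C := by gcongr; exact N.M_le W hcov
    _ = W (T ∪ C) + W (T ∩ C) := h1
    _ ≤ W (A ∪ B) + W (A ∩ B) := add_le_add (measure_mono h2) (measure_mono h3)
    _ = W A + W B := measure_union_add_inter A (MeasurableSet.of_discrete)

/-- the increasing sets lemma -/
lemma increasing [DiscreteMeasurableSpace S] {E : ℕ → Set X} (hE : Monotone E) {c : ℝ≥0∞}
    (hc : ∀ j, N.M W (E j) ≤ c) : N.M W (⋃ j, E j) ≤ c := by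
  rcases eq_or_ne c ⊤ with rfl | hctop
  · exact le_top
  refine ENNReal.le_of_forall_pos_le_add fun ε hε _ => ?_
  obtain ⟨e, he0, hesum⟩ := ENNReal.exists_pos_sum_of_countable (ENNReal.coe_pos.2 hε).ne' ℕ
  have hfin : ∀ j, N.M W (E j) ≠ ⊤ := fun j => ((hc j).trans_lt hctop.lt_top).ne
  have hQ : ∀ j, ∃ U : Set S, E j ⊆ N.cov U ∧ W U ≤ N.M W (E j) + e j := by
    intro j
    obtain ⟨U, h1, h2⟩ := N.exists_cover W (ENNReal.lt_add_right (hfin j) (ENNReal.coe_pos.2 (he0 j)).ne')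
    exact ⟨U, h1, h2.le⟩
  choose Q hQ1 hQ2 using hQ
  let D : ℕ → Set S := fun m => Nat.rec (Q 0) (fun m D => N.top (D ∪ Q (m + 1))) m
  have hD0 : D 0 = Q 0 := rfl
  have hDs : ∀ m, D (m + 1) = N.top (D m ∪ Q (m + 1)) := fun m => rfl
  have hcovD : ∀ m, E m ⊆ N.cov (D m) := by
    intro m
    cases m with
    | zero => exact hQ1 0
    | succ m =>
      intro x hx
      obtain ⟨q, hq, hxq⟩ := hQ1 (m + 1) hx
      obtain ⟨p, hp, hxp, _⟩ := N.exists_top (D m ∪ Q (m + 1)) x q (Or.inr hq) hxq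
      exact ⟨p, hp, hxp⟩
  have hWD : ∀ m, W (D m) ≤ N.M W (E m) + ∑ j ∈ Finset.range (m + 1), (e j : ℝ≥0∞) := by
    intro m
    induction m with
    | zero => simpa [hD0] using hQ2 0
    | succ m ih =>
      have h1 := N.key W (hcovD m) ((hE (Nat.le_succ m)).trans (hQ1 (m + 1)))
      rw [← hDs] at h1
      have h2 : W (D (m + 1)) + N.M W (E m) ≤
          (N.M W (E (m + 1)) + ∑ j ∈ Finset.range (m + 1 + 1), (e j : ℝ≥0∞)) + N.M W (E m) := by
        calc W (D (m + 1)) + N.M W (E m) ≤ W (D m) + W (Q (m + 1)) := h1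
          _ ≤ (N.M W (E m) + ∑ j ∈ Finset.range (m + 1), (e j : ℝ≥0∞)) +
              (N.M W (E (m + 1)) + e (m + 1)) := add_le_add ih (hQ2 (m + 1))
          _ = _ := by
            rw [Finset.sum_range_succ _ (m + 1)]
            ring
      exact (ENNReal.add_le_add_iff_right (hfin m)).1 h2
  -- the limit family
  set L : ℕ → Set S := fun m => ⋂ j, D (m + j) with hL
  have hLmono : Monotone L := by
    intro a b hab q hq
    rw [mem_iInter] at hq ⊢
    intro j
    have := hq (b - a + j)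
    rwa [← add_assoc, Nat.add_sub_of_le hab] at this
  have hWL : W (⋃ m, L m) ≤ c + ε := by
    rw [hLmono.measure_iUnion]
    refine iSup_le fun m => ?_
    calc W (L m) ≤ W (D m) := measure_mono fun q hq => by
          have := mem_iInter.1 hq 0
          rwa [add_zero] at this
      _ ≤ N.M W (E m) + ∑ j ∈ Finset.range (m + 1), (e j : ℝ≥0∞) := hWD m
      _ ≤ c + ε := add_le_add (hc m) ((ENNReal.sum_le_tsum _).trans hesum.le)
  refine (N.M_le W ?_).trans hWL
  intro x hx
  obtain ⟨j₀, hj₀⟩ := mem_iUnion.1 hx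
  -- choose cells
  have hex : ∀ m, j₀ ≤ m → ∃ q ∈ D m, x ∈ N.cell q := fun m hm => hcovD m (hE hm hj₀)
  -- the least level reached
  obtain ⟨k₀, ⟨m, hm, q, hqD, hxq, hqk⟩, hk₀⟩ : ∃ k, (∃ m, j₀ ≤ m ∧ ∃ q ∈ D m, x ∈ N.cell q ∧ N.lev q = k) ∧
      ∀ k', (∃ m, j₀ ≤ m ∧ ∃ q ∈ D m, x ∈ N.cell q ∧ N.lev q = k') → k ≤ k' := by
    classical
    have hne : ∃ k, ∃ m, j₀ ≤ m ∧ ∃ q ∈ D m, x ∈ N.cell q ∧ N.lev q = k := by
      obtain ⟨q, hq, hxq⟩ := hex j₀ le_rfl
      exact ⟨N.lev q, j₀, le_rfl, q, hq, hxq, rfl⟩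
    exact ⟨Nat.find hne, Nat.find_spec hne, fun k' hk' => Nat.find_min' hne hk'⟩
  have hstay : ∀ i, q ∈ D (m + i) := by
    intro i
    induction i with
    | zero => exact hqD
    | succ i ih =>
      have h1 : D (m + (i + 1)) = N.top (D (m + i) ∪ Q (m + i + 1)) := by
        rw [← add_assoc]
      obtain ⟨p, hp, hxp, hpq⟩ := N.exists_top (D (m + i) ∪ Q (m + i + 1)) x q (Or.inl ih) hxq
      have h2 : k₀ ≤ N.lev p :=
        hk₀ _ ⟨m + (i + 1), by omega, p, by rw [h1]; exact hp, hxp, rfl⟩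
      have h3 : p = q := N.same p q x hxp hxq (by omega)
      rw [h1, ← h3]
      exact hp
  exact ⟨q, mem_iUnion.2 ⟨m, mem_iInter.2 hstay⟩, hxq⟩

/-- compact subsets of analytic sets -/
theorem compact_of_analytic [DiscreteMeasurableSpace S] [TopologicalSpace X] {A : Set X}
    (hA : AnalyticSet A) {c : ℝ≥0∞} (hc : c < N.M W A) :
    ∃ K ⊆ A, IsCompact K ∧ ∀ G, IsOpen G → K ⊆ G → c < N.M W G := by
  rw [AnalyticSet_def] at hA
  rcases hA with rfl | ⟨f, hf, rfl⟩
  · have : N.M W (∅ : Set X) = 0 := le_antisymm ((N.M_le W (empty_subset (N.cov ∅))).trans (by simp)) zero_le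
    rw [this] at hc
    exact absurd hc not_lt_zero
  let R : (ℕ → (ℕ → ℕ) → Set X) := fun k n => {x | ∃ σ : ℕ → ℕ, (∀ j < k, σ j ≤ n j) ∧ f σ = x}
  let p : ℕ → (ℕ → ℕ) → Prop := fun k n => c < N.M W (R k n)
  have step : ∀ k n, p k n → ∃ m, p (k + 1) (Function.update n k m) := by
    intro k n h
    have e : R k n = ⋃ m : ℕ, R (k + 1) (Function.update n k m) := by
      ext w
      simp only [R, Set.mem_ofPred_eq, mem_iUnion, Function.update_apply]
      constructor
      · rintro ⟨σ, h1, h2⟩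
        exact ⟨σ k, σ, fun j hj => by grind, h2⟩
      · rintro ⟨m, σ, h1, h2⟩
        exact ⟨σ, fun j hj => by have := h1 j (by omega); grind, h2⟩
    by_contra hcon
    simp only [p, not_exists, not_lt] at hcon h
    rw [e] at h
    refine absurd h (not_lt.2 (N.increasing W ?_ hcon))
    rintro a b hab w ⟨σ, h1, h2⟩
    refine ⟨σ, fun j hj => (h1 j hj).trans ?_, h2⟩
    simp only [Function.update_apply]; split_ifs <;> omega
  choose! g hg using step
  let s : ℕ → ℕ → ℕ := fun k => Nat.rec (fun _ => 0) (fun k n => Function.update n k (g k n)) k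
  have s1 : ∀ k, s (k + 1) = Function.update (s k) k (g k (s k)) := fun k => rfl
  have hs : ∀ k, p k (s k) := fun k => by
    induction k with
    | zero =>
      have e : R 0 (s 0) = range f := by
        ext x; simp [R]
      simp only [p, e]
      exact hc
    | succ k ih => exact hg k _ ih
  have s2 : ∀ k j, j < k → s k j = s (j + 1) j := fun k => by
    induction k with
    | zero => intro j hj; omega
    | succ k ih =>
      intro j hj
      rcases Nat.lt_succ_iff_lt_or_eq.1 hj with h | rfl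
      · rw [s1, Function.update_of_ne h.ne, ih j h]
      · rfl
  let n : ℕ → ℕ := fun j => s (j + 1) j
  have hC : IsCompact (univ.pi fun j => Iic (n j)) :=
    isCompact_univ_pi fun j => (finite_Iic _).isCompact
  refine ⟨f '' univ.pi fun j => Iic (n j), image_subset_range _ _, hC.image hf, fun G hG hK => ?_⟩
  have : ∃ k, ∀ σ : ℕ → ℕ, (∀ j < k, σ j ≤ n j) → f σ ∈ G := by
    by_contra h
    push Not at h
    choose σ h1 h2 using h
    obtain ⟨τ, hτ, ht⟩ := hC.ultrafilter_le_nhds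
      ((hyperfilter ℕ).map fun k j => min (σ k j) (n j)) (by
        rw [Ultrafilter.coe_map, le_principal_iff, mem_map]
        exact univ_mem' fun k j _ => mem_Iic.2 (min_le_right (σ k j) (n j)))
    rw [Ultrafilter.coe_map] at ht
    have ht' : Tendsto σ (hyperfilter ℕ : Filter ℕ) (𝓝 τ) := by
      refine tendsto_pi_nhds.2 fun j => (tendsto_pi_nhds.1 ht j).congr' ?_
      apply Nat.hyperfilter_le_atTop
      filter_upwards [eventually_gt_atTop j] with k hk
      exact min_eq_left (h1 k j hk)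
    exact (hG.preimage hf).isClosed_compl.mem_of_tendsto ht' (Eventually.of_forall h2)
      (hK ⟨τ, hτ, rfl⟩)
  obtain ⟨k, hk⟩ := this
  refine (hs k).trans_le (N.M_mono W ?_)
  rintro w ⟨σ, h1, rfl⟩
  exact hk σ fun j hj => (h1 j hj).trans (s2 k j hj).le

end Net

end Pool.Agent.Helper28.TP
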