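import Pool.Agent.Helper28.TP.Content

/-! Dyadic cubes in Euclidean space and the associated content. -/

set_option linter.unusedSectionVars false

open MeasureTheory Measure Set Metric Filter Topology
open scoped ENNReal NNReal

namespace Pool.Agent.Helper28.TP

/-- Euclidean space -/
abbrev Eu (n : ℕ) := EuclideanSpace ℝ (Fin n)

/-- index of the dyadic cube of side `2⁻ᵏ` containing `x` -/
noncomputable def didx {n : ℕ} (k : ℕ) (x : Eu n) : Fin n → ℤ := fun j => ⌊(2 : ℝ) ^ k * x j⌋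

lemma floor_nest (a b : ℝ) (i : ℕ) (h : ⌊(2 : ℝ) ^ i * a⌋ = ⌊(2 : ℝ) ^ i * b⌋) : ⌊a⌋ = ⌊b⌋ := by
  have key : ∀ a b : ℝ, ⌊(2 : ℝ) ^ i * a⌋ = ⌊(2 : ℝ) ^ i * b⌋ → ⌊b⌋ ≤ ⌊a⌋ := by
    intro a b h
    by_contra hlt
    push Not at hlt
    set z := ⌊b⌋ with hz
    have h1 : a < z := Int.floor_lt.1 hlt
    have h2 : (z : ℝ) ≤ b := Int.floor_le b
    have h3 : ⌊(2 : ℝ) ^ i * a⌋ < 2 ^ i * z := by
      rw [Int.floor_lt]
      push_cast
      exact mul_lt_mul_of_pos_left h1 (by positivity)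
    have h4 : 2 ^ i * z ≤ ⌊(2 : ℝ) ^ i * b⌋ := by
      rw [Int.le_floor]
      push_cast
      exact mul_le_mul_of_nonneg_left h2 (by positivity)
    omega
  exact le_antisymm (key b a h.symm) (key a b h)

lemma didx_nest {n : ℕ} (k k' : ℕ) (x y : Eu n) (hk : k ≤ k') (h : didx k' x = didx k' y) :
    didx k x = didx k y := by
  obtain ⟨i, rfl⟩ := Nat.exists_eq_add_of_le hk
  funext j
  have h1 := congrFun h j
  unfold didx at h1 ⊢
  refine floor_nest _ _ i ?_
  rw [← mul_assoc, ← mul_assoc, ← pow_add, add_comm i k]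
  exact h1

/-- the net of dyadic cubes of side at most one -/
noncomputable def dnet (n : ℕ) : Net (ℕ × (Fin n → ℤ)) (Eu n) where
  lev q := q.1
  cell q := {x | didx q.1 x = q.2}
  same p q x hp hq h := by
    obtain ⟨k, a⟩ := p
    obtain ⟨l, b⟩ := q
    simp only at h
    subst h
    change didx k x = a at hp
    change didx k x = b at hq
    rw [← hp, ← hq]
  nest p q x hp hq h := by
    obtain ⟨k, a⟩ := p
    obtain ⟨l, b⟩ := q
    change didx k x = a at hp
    change didx l x = b at hq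
    intro y hy
    change didx l y = b at hy
    change didx k y = a
    rw [← hp]
    exact didx_nest k l y x h (by rw [hy, hq])

/-- the weight of cubes of level `k` -/
noncomputable def wt (s : ℝ) (k : ℕ) : ℝ := (2 : ℝ) ^ (-((k : ℝ) * s))

lemma wt_pos (s : ℝ) (k : ℕ) : 0 < wt s k := by unfold wt; positivity

/-- the measure on families -/
noncomputable def W (n : ℕ) (s : ℝ) : Measure (ℕ × (Fin n → ℤ)) :=
  Measure.sum fun q => ENNReal.ofReal (wt s q.1) • Measure.dirac q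

lemma W_apply (n : ℕ) (s : ℝ) (U : Set (ℕ × (Fin n → ℤ))) :
    W n s U = ∑' q : U, ENNReal.ofReal (wt s q.1.1) := by
  unfold W
  rw [Measure.sum_apply _ MeasurableSet.of_discrete,
    tsum_subtype U (fun q => ENNReal.ofReal (wt s q.1))]
  congr 1
  ext q
  rw [Measure.smul_apply, Measure.dirac_apply' _ MeasurableSet.of_discrete, smul_eq_mul]
  by_cases h : q ∈ U <;> simp [h]

lemma W_singleton (n : ℕ) (s : ℝ) (q : ℕ × (Fin n → ℤ)) :
    W n s {q} = ENNReal.ofReal (wt s q.1) := by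
  rw [W_apply]
  simp

lemma wt_lt_iff {s : ℝ} (hs : 0 < s) {k l : ℕ} (h : wt s k < wt s l) : l < k := by
  unfold wt at h
  rw [Real.rpow_lt_rpow_left_iff (by norm_num)] at h
  have : (l : ℝ) * s < k * s := by linarith
  have := lt_of_mul_lt_mul_right this hs.le
  exact_mod_cast this

lemma coord_dist {n k : ℕ} {x y : Eu n} (h : didx k x = didx k y) (j : Fin n) :
    |x j - y j| ≤ ((2 : ℝ) ^ k)⁻¹ := by
  have h1 := congrFun h j
  unfold didx at h1
  have h2 := Int.abs_sub_lt_one_of_floor_eq_floor h1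
  rw [← mul_sub, abs_mul, abs_of_pos (by positivity : (0 : ℝ) < 2 ^ k)] at h2
  rw [← one_div, le_div_iff₀ (by positivity), mul_comm]
  exact h2.le

lemma dist_le_of_coord {n : ℕ} {x y : Eu n} {r : ℝ} (hr : 0 ≤ r) (h : ∀ j, |x j - y j| ≤ r) :
    dist x y ≤ Real.sqrt n * r := by
  rw [EuclideanSpace.dist_eq]
  have h1 : ∑ i, dist (x i) (y i) ^ 2 ≤ n * r ^ 2 := by
    calc ∑ i, dist (x i) (y i) ^ 2 ≤ ∑ _i : Fin n, r ^ 2 := by
          refine Finset.sum_le_sum fun i _ => ?_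
          rw [Real.dist_eq]
          exact pow_le_pow_left₀ (abs_nonneg _) (h i) 2
      _ = n * r ^ 2 := by simp
  calc Real.sqrt (∑ i, dist (x i) (y i) ^ 2) ≤ Real.sqrt (n * r ^ 2) := Real.sqrt_le_sqrt h1
    _ = Real.sqrt n * r := by rw [Real.sqrt_mul (by positivity), Real.sqrt_sq hr]

lemma ediam_cell {n : ℕ} (k : ℕ) (a : Fin n → ℤ) :
    ediam {x : Eu n | didx k x = a} ≤ ENNReal.ofReal (Real.sqrt n * ((2 : ℝ) ^ k)⁻¹) := by
  refine ediam_le fun x hx y hy => ?_
  rw [edist_dist]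
  refine ENNReal.ofReal_le_ofReal (dist_le_of_coord (by positivity) fun j => ?_)
  have hx' : didx k x = a := hx
  have hy' : didx k y = a := hy
  exact coord_dist (hx'.trans hy'.symm) j

lemma wt_eq (s : ℝ) (k : ℕ) : wt s k = (((2 : ℝ) ^ k)⁻¹) ^ s := by
  unfold wt
  rw [← Real.rpow_natCast 2 k, ← Real.rpow_neg (by norm_num), ← Real.rpow_mul (by norm_num)]
  congr 1
  ring

/-- sets of content zero have Hausdorff measure zero -/
lemma hausdorff_zero_of_M (n : ℕ) {s : ℝ} (hs : 0 < s) (Z : Set (Eu n))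
    (hZ : (dnet n).M (W n s) Z = 0) : μH[s] Z = 0 := by
  have h1 : ∀ m : ℕ, ∃ U : Set (ℕ × (Fin n → ℤ)), Z ⊆ (dnet n).cov U ∧
      W n s U < ENNReal.ofReal (wt s m) := by
    intro m
    refine (dnet n).exists_cover (W n s) ?_
    rw [hZ]
    exact ENNReal.ofReal_pos.2 (wt_pos s m)
  choose U hU1 hU2 using h1
  have hlev : ∀ m, ∀ q ∈ U m, m < q.1 := by
    intro m q hq
    refine wt_lt_iff hs ?_
    have h2 : ENNReal.ofReal (wt s q.1) < ENNReal.ofReal (wt s m) := by
      rw [← W_singleton n s q]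
      exact (measure_mono (singleton_subset_iff.2 hq)).trans_lt (hU2 m)
    exact (ENNReal.ofReal_lt_ofReal_iff (wt_pos s m)).1 h2
  have h0 : Tendsto (fun m : ℕ => ENNReal.ofReal (Real.sqrt n * ((2 : ℝ) ^ m)⁻¹)) atTop (𝓝 0) := by
    rw [← ENNReal.ofReal_zero]
    refine ENNReal.tendsto_ofReal ?_
    have : Tendsto (fun m : ℕ => Real.sqrt n * ((2 : ℝ)⁻¹) ^ m) atTop (𝓝 (Real.sqrt n * 0)) :=
      (tendsto_pow_atTop_nhds_zero_of_lt_one (by norm_num) (by norm_num)).const_mul _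
    rw [mul_zero] at this
    simpa using this
  have h2 := hausdorffMeasure_le_liminf_tsum (ι := fun m => ↥(U m)) s Z
    (fun m : ℕ => ENNReal.ofReal (Real.sqrt n * ((2 : ℝ) ^ m)⁻¹)) h0
    (fun m q => {x : Eu n | didx q.1.1 x = q.1.2})
    (Eventually.of_forall fun m q => by
      refine (ediam_cell q.1.1 q.1.2).trans (ENNReal.ofReal_le_ofReal ?_)
      have h3 := hlev m q.1 q.2
      have h4 : (2 : ℝ) ^ m ≤ 2 ^ q.1.1 := pow_le_pow_right₀ (by norm_num) h3.le
      gcongr)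
    (Eventually.of_forall fun m x hx => by
      obtain ⟨q, hq, hxq⟩ := hU1 m hx
      exact mem_iUnion.2 ⟨⟨q, hq⟩, hxq⟩)
  refine le_antisymm (h2.trans ?_) zero_le
  have h5 : ∀ m, ∑' q : ↥(U m), ediam {x : Eu n | didx q.1.1 x = q.1.2} ^ s ≤
      ENNReal.ofReal (Real.sqrt n ^ s) * ENNReal.ofReal (wt s m) := by
    intro m
    calc ∑' q : ↥(U m), ediam {x : Eu n | didx q.1.1 x = q.1.2} ^ s
        ≤ ∑' q : ↥(U m), ENNReal.ofReal (Real.sqrt n ^ s) * ENNReal.ofReal (wt s q.1.1) := by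
          refine ENNReal.tsum_le_tsum fun q => ?_
          refine (ENNReal.rpow_le_rpow (ediam_cell q.1.1 q.1.2) hs.le).trans ?_
          rw [ENNReal.ofReal_rpow_of_nonneg (by positivity) hs.le, ← ENNReal.ofReal_mul (by positivity),
            Real.mul_rpow (by positivity) (by positivity), ← wt_eq]
      _ = ENNReal.ofReal (Real.sqrt n ^ s) * W n s (U m) := by
          rw [ENNReal.tsum_mul_left, W_apply]
      _ ≤ _ := by gcongr; exact (hU2 m).le
  have h6 : Tendsto (fun m => ENNReal.ofReal (Real.sqrt n ^ s) * ENNReal.ofReal (wt s m)) atTop (𝓝 0) := by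
    have h7 : Tendsto (fun m => wt s m) atTop (𝓝 0) := by
      have h8 : ∀ m : ℕ, wt s m = ((2 : ℝ) ^ (-s)) ^ m := by
        intro m
        unfold wt
        rw [← Real.rpow_mul_natCast (by norm_num)]
        congr 1
        ring
      simp_rw [h8]
      refine tendsto_pow_atTop_nhds_zero_of_lt_one (by positivity) ?_
      exact Real.rpow_lt_one_of_one_lt_of_neg (by norm_num) (by linarith)
    have h9 := ENNReal.tendsto_ofReal h7
    rw [ENNReal.ofReal_zero] at h9
    have h10 := ENNReal.Tendsto.const_mul h9 (Or.inr (ENNReal.ofReal_ne_top (r := Real.sqrt n ^ s)))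
    rwa [mul_zero] at h10
  calc liminf (fun m => ∑' q : ↥(U m), ediam {x : Eu n | didx q.1.1 x = q.1.2} ^ s) atTop
      ≤ liminf (fun m => ENNReal.ofReal (Real.sqrt n ^ s) * ENNReal.ofReal (wt s m)) atTop :=
        liminf_le_liminf (Eventually.of_forall h5)
    _ = 0 := h6.liminf_eq

end Pool.Agent.Helper28.TP
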