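import Pool.Agent.Helper28.TP.Sublevel

/-! From the sublevel bound to the decay of the Gaussian average. -/

set_option linter.unusedSectionVars false

open MeasureTheory Measure Set Metric Filter Topology
open scoped ENNReal NNReal RealInnerProductSpace

namespace Pool.Agent.Helper28.TP

variable {P : Type*} [NormedAddCommGroup P] [NormedSpace ℝ P] [FiniteDimensional ℝ P]
  [MeasurableSpace P] [BorelSpace P] (vol : Measure P) [vol.IsAddHaarMeasure]
  {E : Type*} [NormedAddCommGroup E] [InnerProductSpace ℝ E]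

lemma summable_layer : Summable (fun j : ℕ => ((j : ℝ) + 1) * Real.exp (-(j : ℝ))) := by
  have h1 : Summable (fun j : ℕ => (j : ℝ) ^ 1 * Real.exp (-(j : ℝ))) := by
    have := Real.summable_pow_mul_exp_neg_nat_mul 1 (r := 1) one_pos
    simpa using this
  have h2 : Summable (fun j : ℕ => Real.exp (-(j : ℝ))) := by
    have := Real.summable_pow_mul_exp_neg_nat_mul 0 (r := 1) one_pos
    simpa using this
  refine (h1.add h2).congr fun j => ?_
  ring

lemma layer {U : Set P} (hU : IsOpen U) {ψ : P → E} (hψ : ContDiffOn ℝ 2 ψ U) (u₀ : P)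
    {r : ℝ} (hrU : closedBall u₀ r ⊆ U) {C : ℝ} (hC : 0 ≤ C)
    (h : ∀ ω : E, ‖ω‖ = 1 → ∀ ε : ℝ, 0 < ε → vol (Sub ψ u₀ r ω ε) ≤ ENNReal.ofReal (C * ε)) :
    ∃ C₁ : ℝ, 0 ≤ C₁ ∧ ∀ ξ : E,
      ∫⁻ u in closedBall u₀ r, ENNReal.ofReal (Real.exp (-Real.pi * ⟪ξ, ψ u⟫ ^ 2)) ∂vol ≤
        ENNReal.ofReal (C₁ / (1 + ‖ξ‖)) := by
  set V : ℝ := (vol (closedBall u₀ r)).toReal with hV
  have hV0 : 0 ≤ V := ENNReal.toReal_nonneg
  have hVe : vol (closedBall u₀ r) = ENNReal.ofReal V :=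
    (ENNReal.ofReal_toReal measure_closedBall_lt_top.ne).symm
  set K : ℝ := ∑' j : ℕ, ((j : ℝ) + 1) * Real.exp (-(j : ℝ)) with hK
  have hK0 : 0 ≤ K := tsum_nonneg fun j => by positivity
  refine ⟨2 * V + 2 * (C * K), by positivity, fun ξ => ?_⟩
  have hle1 : ∀ p : ℝ, Real.exp (-Real.pi * p ^ 2) ≤ 1 := fun p => by
    rw [Real.exp_le_one_iff]
    have : 0 ≤ Real.pi * p ^ 2 := by positivity
    linarith
  rcases le_or_gt ‖ξ‖ 1 with hξ | hξ
  · calc ∫⁻ u in closedBall u₀ r, ENNReal.ofReal (Real.exp (-Real.pi * ⟪ξ, ψ u⟫ ^ 2)) ∂vol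
        ≤ ∫⁻ _ in closedBall u₀ r, 1 ∂vol := by
          refine lintegral_mono fun u => ?_
          rw [← ENNReal.ofReal_one]
          exact ENNReal.ofReal_le_ofReal (hle1 _)
      _ = ENNReal.ofReal V := by rw [setLIntegral_const, one_mul, hVe]
      _ ≤ _ := by
          refine ENNReal.ofReal_le_ofReal ?_
          rw [le_div_iff₀ (by positivity)]
          have : 0 ≤ C * K := by positivity
          nlinarith
  · have hξ0 : 0 < ‖ξ‖ := by linarith
    set ω : E := ‖ξ‖⁻¹ • ξ with hω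
    have hω1 : ‖ω‖ = 1 := by rw [hω, norm_smul, norm_inv, norm_norm, inv_mul_cancel₀ hξ0.ne']
    have hp : ∀ u, |⟪ξ, ψ u⟫| = ‖ξ‖ * |⟪ψ u, ω⟫| := by
      intro u
      rw [hω, real_inner_smul_right, abs_mul, abs_of_pos (by positivity : (0 : ℝ) < ‖ξ‖⁻¹),
        ← mul_assoc, mul_inv_cancel₀ hξ0.ne', one_mul, real_inner_comm]
    have hpt : ∀ u ∈ closedBall u₀ r, ENNReal.ofReal (Real.exp (-Real.pi * ⟪ξ, ψ u⟫ ^ 2)) ≤
        ∑' j : ℕ, (Sub ψ u₀ r ω (((j : ℝ) + 1) / ‖ξ‖)).indicator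
          (fun _ => ENNReal.ofReal (Real.exp (-(j : ℝ)))) u := by
      intro u hu
      set p := |⟪ξ, ψ u⟫| with hpdef
      have hp0 : 0 ≤ p := abs_nonneg _
      set j : ℕ := ⌊p⌋₊ with hj
      have hj1 : (j : ℝ) ≤ p := Nat.floor_le hp0
      have hj2 : p < (j : ℝ) + 1 := Nat.lt_floor_add_one p
      have hmem : u ∈ Sub ψ u₀ r ω (((j : ℝ) + 1) / ‖ξ‖) := by
        refine ⟨hu, ?_⟩
        rw [lt_div_iff₀ hξ0, mul_comm, ← hp u]
        exact hj2
      refine le_trans ?_ (ENNReal.le_tsum j)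
      rw [indicator_of_mem hmem]
      refine ENNReal.ofReal_le_ofReal (Real.exp_le_exp.2 ?_)
      have h1 : (j : ℝ) ≤ (j : ℝ) ^ 2 := by
        have : (j : ℝ) ^ 2 = ((j ^ 2 : ℕ) : ℝ) := by push_cast; ring
        rw [this]
        exact_mod_cast Nat.le_self_pow (by norm_num) j
      have h2 : (j : ℝ) ^ 2 ≤ ⟪ξ, ψ u⟫ ^ 2 := by
        rw [← sq_abs ⟪ξ, ψ u⟫]
        exact pow_le_pow_left₀ (Nat.cast_nonneg j) hj1 2
      have h3 : 1 ≤ Real.pi := by linarith [Real.pi_gt_three]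
      have h4 : 0 ≤ ⟪ξ, ψ u⟫ ^ 2 := sq_nonneg _
      nlinarith
    have hmeas : ∀ j : ℕ, MeasurableSet (Sub ψ u₀ r ω (((j : ℝ) + 1) / ‖ξ‖)) := fun j =>
      measurableSet_Sub hU hψ u₀ r hrU ω _
    calc ∫⁻ u in closedBall u₀ r, ENNReal.ofReal (Real.exp (-Real.pi * ⟪ξ, ψ u⟫ ^ 2)) ∂vol
        ≤ ∫⁻ u in closedBall u₀ r, ∑' j : ℕ, (Sub ψ u₀ r ω (((j : ℝ) + 1) / ‖ξ‖)).indicator
          (fun _ => ENNReal.ofReal (Real.exp (-(j : ℝ)))) u ∂vol :=
          setLIntegral_mono' measurableSet_closedBall hpt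
      _ ≤ ∫⁻ u, ∑' j : ℕ, (Sub ψ u₀ r ω (((j : ℝ) + 1) / ‖ξ‖)).indicator
          (fun _ => ENNReal.ofReal (Real.exp (-(j : ℝ)))) u ∂vol :=
          setLIntegral_le_lintegral _ _
      _ = ∑' j : ℕ, ∫⁻ u, (Sub ψ u₀ r ω (((j : ℝ) + 1) / ‖ξ‖)).indicator
          (fun _ => ENNReal.ofReal (Real.exp (-(j : ℝ)))) u ∂vol := by
          rw [lintegral_tsum]
          intro j
          exact (measurable_const.indicator (hmeas j)).aemeasurable
      _ = ∑' j : ℕ, ENNReal.ofReal (Real.exp (-(j : ℝ))) *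
            vol (Sub ψ u₀ r ω (((j : ℝ) + 1) / ‖ξ‖)) := by
          congr 1
          ext j
          rw [lintegral_indicator_const (hmeas j)]
      _ ≤ ∑' j : ℕ, ENNReal.ofReal (C / ‖ξ‖ * (((j : ℝ) + 1) * Real.exp (-(j : ℝ)))) := by
          refine ENNReal.tsum_le_tsum fun j => ?_
          refine (mul_le_mul_right (h ω hω1 _ (by positivity)) _).trans ?_
          rw [← ENNReal.ofReal_mul (Real.exp_pos _).le]
          refine ENNReal.ofReal_le_ofReal (le_of_eq ?_)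
          ring
      _ = ENNReal.ofReal (C / ‖ξ‖ * K) := by
          rw [← ENNReal.ofReal_tsum_of_nonneg (fun j => by positivity)
            (summable_layer.mul_left _), tsum_mul_left]
      _ ≤ _ := by
          refine ENNReal.ofReal_le_ofReal ?_
          rw [le_div_iff₀ (by positivity)]
          have h1 : (1 + ‖ξ‖) / ‖ξ‖ ≤ 2 := by
            rw [div_le_iff₀ hξ0]
            linarith
          have h2 : 0 ≤ C * K := by positivity
          calc C / ‖ξ‖ * K * (1 + ‖ξ‖) = (C * K) * ((1 + ‖ξ‖) / ‖ξ‖) := by ring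
            _ ≤ (C * K) * 2 := by gcongr
            _ ≤ _ := by linarith

end Pool.Agent.Helper28.TP
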