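import Pool.Agent.Helper28.TP.ProjDim
import Pool.Agent.Helper28.TP.Layer

/-! Sectional curvature greater than one makes the second fundamental form in the sphere definite. -/

set_option linter.unusedSectionVars false

open MeasureTheory Measure Set Metric Filter Topology
open scoped ENNReal NNReal RealInnerProductSpace

namespace Pool.Agent.Helper28.TP

/-- inner products of normal components, in codimension two -/
lemma normal_inner {P E : Type*} [NormedAddCommGroup P] [NormedSpace ℝ P] [FiniteDimensional ℝ P]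
    [NormedAddCommGroup E] [InnerProductSpace ℝ E] [FiniteDimensional ℝ E]
    (hdim : Module.finrank ℝ E = Module.finrank ℝ P + 2)
    (D : P →L[ℝ] E) (hD : Function.Injective D) (p ω : E) (hp : ‖p‖ = 1) (hω : ‖ω‖ = 1)
    (hpω : ⟪p, ω⟫ = 0) (hDp : ∀ a, ⟪D a, p⟫ = 0) (hDω : ∀ a, ⟪D a, ω⟫ = 0) (x y : E) :
    ⟪(D.range)ᗮ.starProjection x, (D.range)ᗮ.starProjection y⟫ =
      ⟪x, p⟫ * ⟪y, p⟫ + ⟪x, ω⟫ * ⟪y, ω⟫ := by
  set V : Submodule ℝ E := (D.range)ᗮ with hV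
  have hpV : p ∈ V := by
    rw [hV, Submodule.mem_orthogonal]
    rintro _ ⟨a, rfl⟩
    exact hDp a
  have hωV : ω ∈ V := by
    rw [hV, Submodule.mem_orthogonal]
    rintro _ ⟨a, rfl⟩
    exact hDω a
  have hfin : Module.finrank ℝ V = 2 := by
    have h1 := Submodule.finrank_add_finrank_orthogonal D.range
    have h2 : Module.finrank ℝ D.range = Module.finrank ℝ P :=
      LinearMap.finrank_range_of_inj (f := (D : P →ₗ[ℝ] E)) hD
    have h3 : Module.finrank ℝ V = Module.finrank ℝ (D.range)ᗮ := rfl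
    rw [h3]
    linarith [h1, h2, hdim]
  set v : Fin 2 → V := ![⟨p, hpV⟩, ⟨ω, hωV⟩] with hv
  have hon : Orthonormal ℝ v := by
    rw [orthonormal_iff_ite]
    intro i j
    fin_cases i <;> fin_cases j
    · simp [hv, hp]
    · simpa [hv] using hpω
    · have : ⟪ω, p⟫ = 0 := by rw [real_inner_comm]; exact hpω
      simpa [hv] using this
    · simp [hv, hω]
  have hspan : ⊤ ≤ Submodule.span ℝ (range v) :=
    (hon.linearIndependent.span_eq_top_of_card_eq_finrank' (by rw [hfin, Fintype.card_fin])).ge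
  set b := OrthonormalBasis.mk hon hspan with hb
  have h1 := b.sum_inner_mul_inner (V.orthogonalProjectionOnto x) (V.orthogonalProjectionOnto y)
  have hb0 : b 0 = ⟨p, hpV⟩ := by rw [hb]; simp [hv]
  have hb1 : b 1 = ⟨ω, hωV⟩ := by rw [hb]; simp [hv]
  rw [Fin.sum_univ_two, hb0, hb1] at h1
  have key : ∀ (z w : E) (hw : w ∈ V), ⟪V.orthogonalProjectionOnto z, (⟨w, hw⟩ : V)⟫ = ⟪z, w⟫ := by
    intro z w hw
    rw [Submodule.coe_inner]
    change ⟪V.starProjection z, w⟫ = ⟪z, w⟫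
    rw [Submodule.inner_starProjection_left_eq_right, Submodule.starProjection_eq_self_iff.2 hw]
  have h2 : ⟪V.starProjection x, V.starProjection y⟫ =
      ⟪V.orthogonalProjectionOnto x, V.orthogonalProjectionOnto y⟫ := by
    rw [Submodule.coe_inner]
    rfl
  rw [h2, ← h1, key, key, real_inner_comm _ (⟨p, hpV⟩ : V), real_inner_comm _ (⟨ω, hωV⟩ : V), key, key]

lemma definite_of_curv {P E : Type*} [NormedAddCommGroup P] [NormedSpace ℝ P] [FiniteDimensional ℝ P]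
    [NormedAddCommGroup E] [InnerProductSpace ℝ E] [FiniteDimensional ℝ E]
    (hdim : Module.finrank ℝ E = Module.finrank ℝ P + 2) (hP : 1 < Module.finrank ℝ P)
    (D : P →L[ℝ] E) (hD : Function.Injective D) (B : P →L[ℝ] P →L[ℝ] E) (p ω : E)
    (hp : ‖p‖ = 1) (hω : ‖ω‖ = 1)
    (hpω : ⟪p, ω⟫ = 0) (hDp : ∀ a, ⟪D a, p⟫ = 0) (hDω : ∀ a, ⟪D a, ω⟫ = 0)
    (hB : ∀ a b, ⟪B a b, p⟫ = -⟪D a, D b⟫)
    (hcurv : ∀ a b, LinearIndependent ℝ ![a, b] →
      1 < (⟪(D.range)ᗮ.starProjection (B a a), (D.range)ᗮ.starProjection (B b b)⟫ -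
        ‖(D.range)ᗮ.starProjection (B a b)‖ ^ 2) / (‖D a‖ ^ 2 * ‖D b‖ ^ 2 - ⟪D a, D b⟫ ^ 2)) :
    (∀ a ≠ 0, 0 < ⟪B a a, ω⟫) ∨ (∀ a ≠ 0, ⟪B a a, ω⟫ < 0) := by
  have hprod : ∀ a b, LinearIndependent ℝ ![a, b] → 0 < ⟪B a a, ω⟫ * ⟪B b b, ω⟫ := by
    intro a b hab
    have h1 := hcurv a b hab
    rw [← real_inner_self_eq_norm_sq ((D.range)ᗮ.starProjection (B a b)),
      normal_inner hdim D hD p ω hp hω hpω hDp hDω, normal_inner hdim D hD p ω hp hω hpω hDp hDω,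
      hB, hB, hB] at h1
    have h2 : 0 ≤ ‖D a‖ ^ 2 * ‖D b‖ ^ 2 - ⟪D a, D b⟫ ^ 2 := by
      have h3 := abs_real_inner_le_norm (D a) (D b)
      have h4 : ⟪D a, D b⟫ ^ 2 ≤ (‖D a‖ * ‖D b‖) ^ 2 := by
        rw [← sq_abs ⟪D a, D b⟫]
        exact pow_le_pow_left₀ (abs_nonneg _) h3 2
      rw [mul_pow] at h4
      linarith
    have h3 : 0 < ‖D a‖ ^ 2 * ‖D b‖ ^ 2 - ⟪D a, D b⟫ ^ 2 := by
      rcases h2.eq_or_lt with h | h
      · rw [← h, div_zero] at h1
        norm_num at h1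
      · exact h
    rw [lt_div_iff₀ h3, one_mul, real_inner_self_eq_norm_sq, real_inner_self_eq_norm_sq] at h1
    have h5 : 0 ≤ ⟪B a b, ω⟫ ^ 2 := sq_nonneg _
    nlinarith
  have hne : ∀ a, a ≠ 0 → ⟪B a a, ω⟫ ≠ 0 := by
    intro a ha h0
    obtain ⟨b, hb⟩ := exists_linearIndependent_pair_of_one_lt_finrank hP ha
    have := hprod a b hb
    rw [h0, zero_mul] at this
    exact lt_irrefl _ this
  have hnt : Nontrivial P := Module.nontrivial_of_finrank_pos (R := ℝ) (by omega)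
  obtain ⟨a₀, ha₀⟩ := exists_ne (0 : P)
  have hsame : ∀ a ≠ 0, 0 < ⟪B a₀ a₀, ω⟫ * ⟪B a a, ω⟫ := by
    intro a ha
    by_cases h : LinearIndependent ℝ ![a₀, a]
    · exact hprod a₀ a h
    · rw [LinearIndependent.pair_iff' ha₀] at h
      push Not at h
      obtain ⟨c, rfl⟩ := h
      have hc : c ≠ 0 := fun hc => ha (by rw [hc, zero_smul])
      have e : ⟪B (c • a₀) (c • a₀), ω⟫ = c ^ 2 * ⟪B a₀ a₀, ω⟫ := by
        simp only [map_smul, _root_.smul_apply, real_inner_smul_left]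
        ring
      rw [e]
      have h1 := hne a₀ ha₀
      have h2 : 0 < c ^ 2 := by positivity
      have h3 : 0 < ⟪B a₀ a₀, ω⟫ ^ 2 := by positivity
      calc 0 < c ^ 2 * ⟪B a₀ a₀, ω⟫ ^ 2 := mul_pos h2 h3
        _ = _ := by ring
  rcases lt_or_gt_of_ne (hne a₀ ha₀) with h | h
  · right
    intro a ha
    have h1 := hsame a ha
    by_contra h2
    push Not at h2
    nlinarith
  · left
    intro a ha
    exact (pos_iff_pos_of_mul_pos (hsame a ha)).1 h

/-- relations for maps into the unit sphere -/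
lemma sphere_rel {P E : Type*} [NormedAddCommGroup P] [NormedSpace ℝ P] [FiniteDimensional ℝ P]
    [NormedAddCommGroup E] [InnerProductSpace ℝ E] {U : Set P} (hU : IsOpen U) {ψ : P → E}
    (hψ : ContDiffOn ℝ 2 ψ U) (hs : ∀ u ∈ U, ‖ψ u‖ = 1) :
    (∀ u ∈ U, ∀ a, ⟪fderiv ℝ ψ u a, ψ u⟫ = 0) ∧
    (∀ u ∈ U, ∀ a b, ⟪fderiv ℝ (fderiv ℝ ψ) u a b, ψ u⟫ = -⟪fderiv ℝ ψ u a, fderiv ℝ ψ u b⟫) := by
  have line : ∀ u : P, ∀ b : P, HasDerivAt (fun t : ℝ => u + t • b) b 0 := by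
    intro u b
    simpa using ((hasDerivAt_id (0 : ℝ)).smul_const b).const_add u
  have hev : ∀ u ∈ U, ∀ b : P, ∀ᶠ t : ℝ in 𝓝 0, u + t • b ∈ U := by
    intro u hu b
    have h1 := (line u b).continuousAt
    refine h1.eventually (hU.mem_nhds ?_)
    simpa using hu
  have dψ : ∀ u ∈ U, ∀ b : P, HasDerivAt (fun t : ℝ => ψ (u + t • b)) (fderiv ℝ ψ u b) 0 := by
    intro u hu b
    have h1 : HasFDerivAt ψ (fderiv ℝ ψ u) (u + (0 : ℝ) • b) := by
      rw [zero_smul, add_zero]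
      exact ((hψ.contDiffAt (hU.mem_nhds hu)).differentiableAt (by norm_num)).hasFDerivAt
    exact h1.comp_hasDerivAt 0 (line u b)
  have h0 : ContDiffOn ℝ 1 (fderiv ℝ ψ) U := hψ.fderiv_of_isOpen hU (by norm_num)
  have dDψ : ∀ u ∈ U, ∀ b a : P, HasDerivAt (fun t : ℝ => fderiv ℝ ψ (u + t • b) a)
      (fderiv ℝ (fderiv ℝ ψ) u b a) 0 := by
    intro u hu b a
    have h1 : HasFDerivAt (fderiv ℝ ψ) (fderiv ℝ (fderiv ℝ ψ) u) (u + (0 : ℝ) • b) := by
      rw [zero_smul, add_zero]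
      exact ((h0.contDiffAt (hU.mem_nhds hu)).differentiableAt (by norm_num)).hasFDerivAt
    have h3 : HasDerivAt (fun t : ℝ => fderiv ℝ ψ (u + t • b)) (fderiv ℝ (fderiv ℝ ψ) u b) 0 :=
      h1.comp_hasDerivAt 0 (line u b)
    simpa using h3.clm_apply (hasDerivAt_const 0 a)
  have first : ∀ u ∈ U, ∀ a, ⟪fderiv ℝ ψ u a, ψ u⟫ = 0 := by
    intro u hu a
    have h1 := (dψ u hu a).inner ℝ (dψ u hu a)
    have h2 : HasDerivAt (fun t : ℝ => ⟪ψ (u + t • a), ψ (u + t • a)⟫) 0 0 := by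
      refine (hasDerivAt_const (0 : ℝ) (1 : ℝ)).congr_of_eventuallyEq ?_
      filter_upwards [hev u hu a] with t ht
      rw [real_inner_self_eq_norm_sq, hs _ ht, one_pow]
    have h3 := h1.unique h2
    simp only [zero_smul, add_zero] at h3
    rw [real_inner_comm (fderiv ℝ ψ u a) (ψ u)] at h3
    linarith
  refine ⟨first, fun u hu a b => ?_⟩
  have h1 := (dDψ u hu a b).inner ℝ (dψ u hu a)
  have h2 : HasDerivAt (fun t : ℝ => ⟪fderiv ℝ ψ (u + t • a) b, ψ (u + t • a)⟫) 0 0 := by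
    refine (hasDerivAt_const (0 : ℝ) (0 : ℝ)).congr_of_eventuallyEq ?_
    filter_upwards [hev u hu a] with t ht
    exact first _ ht b
  have h3 := h1.unique h2
  simp only [zero_smul, add_zero] at h3
  rw [real_inner_comm (fderiv ℝ ψ u b) (fderiv ℝ ψ u a)]
  linarith

end Pool.Agent.Helper28.TP
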