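import Pool.Agent.Helper28.TP.GaussKey

/-! The averaged energy estimate. -/

set_option linter.unusedSectionVars false

open MeasureTheory Measure Set
open scoped ENNReal NNReal RealInnerProductSpace

namespace Pool.Agent.Helper28.TP

variable {E : Type*} [NormedAddCommGroup E] [InnerProductSpace ℝ E] [FiniteDimensional ℝ E]
  [MeasurableSpace E] [BorelSpace E]

/-- The Gaussian energy of the projection of `μ` along `x`. -/
noncomputable def Jl (μ : Measure E) (x : E) (t : ℝ) : ℝ≥0∞ :=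
  ∫⁻ p, ENNReal.ofReal (Real.exp (-(Real.pi * t) * (‖p.1 - p.2‖ ^ 2 - ⟪p.1 - p.2, x⟫ ^ 2)))
    ∂(μ.prod μ)

/-- The Gaussian energy of `μ`. -/
noncomputable def Il (μ : Measure E) (t : ℝ) : ℝ≥0∞ :=
  ∫⁻ p, ENNReal.ofReal (Real.exp (-(Real.pi * t) * ‖p.1 - p.2‖ ^ 2)) ∂(μ.prod μ)

lemma inner_sq_le {x w : E} (hx : ‖x‖ = 1) : ⟪w, x⟫ ^ 2 ≤ ‖w‖ ^ 2 := by
  have := abs_real_inner_le_norm w x
  rw [hx, mul_one] at this
  calc ⟪w, x⟫ ^ 2 = |⟪w, x⟫| ^ 2 := (sq_abs _).symm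
    _ ≤ ‖w‖ ^ 2 := by gcongr

lemma integrable_bdd_exp (μ : Measure E) [IsFiniteMeasure μ] (f : E → ℝ) (hf : Continuous f)
    (h0 : ∀ w, f w ≤ 0) : Integrable (fun p : E × E => Real.exp (f (p.1 - p.2))) (μ.prod μ) := by
  refine Integrable.mono' (integrable_const (1 : ℝ)) ?_ ?_
  · exact Continuous.aestronglyMeasurable (by fun_prop)
  · refine ae_of_all _ fun p => ?_
    rw [Real.norm_eq_abs, Real.abs_exp, Real.exp_le_one_iff]
    exact h0 _

lemma integrable_mul_ft (μ : Measure E) [IsFiniteMeasure μ] {G : E → ℝ} (hG : Integrable G) :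
    Integrable fun ξ => G ξ * ‖ft μ ξ‖ ^ 2 := by
  refine hG.mul_bdd (c := μ.real univ ^ 2) ?_ ?_
  · exact ((measurable_ft μ).norm.pow_const 2).aestronglyMeasurable
  · refine ae_of_all _ fun ξ => ?_
    rw [norm_pow, norm_norm]
    gcongr
    exact norm_ft_le μ ξ

lemma iso_eq (μ : Measure E) [IsFiniteMeasure μ] {t : ℝ} (ht : 0 < t) :
    ∫⁻ ξ, ENNReal.ofReal (Real.exp (-(Real.pi / t) * ‖ξ‖ ^ 2) * ‖ft μ ξ‖ ^ 2) =
      ENNReal.ofReal (t ^ ((Module.finrank ℝ E : ℝ) / 2)) * Il μ t := by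
  have hpi := Real.pi_pos
  have h := parseval_real μ (fun ξ => Real.exp (-(Real.pi / t) * ‖ξ‖ ^ 2)) _
    (integrable_gauss (by positivity)) (gauss_ee ht)
  have i1 := integrable_mul_ft μ (integrable_gauss (E := E) (c := Real.pi / t) (by positivity))
  have i2 : Integrable (fun p : E × E => Real.exp (-(Real.pi * t) * ‖p.1 - p.2‖ ^ 2)) (μ.prod μ) :=
    integrable_bdd_exp μ (fun w => -(Real.pi * t) * ‖w‖ ^ 2) (by fun_prop) fun w => by
      have : 0 ≤ Real.pi * t * ‖w‖ ^ 2 := by positivity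
      linarith
  rw [← ofReal_integral_eq_lintegral_ofReal i1 (ae_of_all _ fun ξ => by positivity), h]
  unfold Il
  rw [← ofReal_integral_eq_lintegral_ofReal i2 (ae_of_all _ fun ξ => by positivity),
    ← ENNReal.ofReal_mul (by positivity), ← integral_const_mul]

lemma aniso_lower (μ : Measure E) [IsFiniteMeasure μ] {t : ℝ} (ht : 0 < t) (x : E) (hx : ‖x‖ = 1)
    (D : ℝ) (hD : ∀ᵐ p ∂(μ.prod μ), ‖p.1 - p.2‖ ≤ D) :
    ENNReal.ofReal (t ^ ((Module.finrank ℝ E : ℝ) / 2) * Real.sqrt (1 / (1 + t)) *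
        Real.exp (-Real.pi * D ^ 2)) * Jl μ x t ≤
      ∫⁻ ξ, ENNReal.ofReal (Real.exp (-(Real.pi / t) * ‖ξ‖ ^ 2) *
        Real.exp (-Real.pi * ⟪ξ, x⟫ ^ 2) * ‖ft μ ξ‖ ^ 2) := by
  have hpi := Real.pi_pos
  have h := parseval_real μ (fun ξ => Real.exp (-(Real.pi / t) * ‖ξ‖ ^ 2) *
    Real.exp (-Real.pi * ⟪ξ, x⟫ ^ 2)) _ (integrable_aniso ht x) (aniso_ee ht x hx)
  have i1 := integrable_mul_ft μ (integrable_aniso ht x)
  rw [← ofReal_integral_eq_lintegral_ofReal i1 (ae_of_all _ fun ξ => by positivity), h]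
  have i2 : Integrable (fun p : E × E => Real.exp (-(Real.pi * t) *
      (‖p.1 - p.2‖ ^ 2 - ⟪p.1 - p.2, x⟫ ^ 2))) (μ.prod μ) :=
    integrable_bdd_exp μ (fun w => -(Real.pi * t) * (‖w‖ ^ 2 - ⟪w, x⟫ ^ 2)) (by fun_prop) fun w => by
      have := inner_sq_le (w := w) hx
      have : 0 ≤ Real.pi * t * (‖w‖ ^ 2 - ⟪w, x⟫ ^ 2) :=
        mul_nonneg (by positivity) (by linarith)
      linarith
  have i3 : Integrable (fun p : E × E => Real.exp (-(Real.pi * t) *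
      (‖p.1 - p.2‖ ^ 2 - ⟪p.1 - p.2, x⟫ ^ 2) - Real.pi * (t / (1 + t)) * ⟪p.1 - p.2, x⟫ ^ 2))
      (μ.prod μ) :=
    integrable_bdd_exp μ (fun w => -(Real.pi * t) * (‖w‖ ^ 2 - ⟪w, x⟫ ^ 2) -
      Real.pi * (t / (1 + t)) * ⟪w, x⟫ ^ 2) (by fun_prop) fun w => by
      have := inner_sq_le (w := w) hx
      have : 0 ≤ Real.pi * t * (‖w‖ ^ 2 - ⟪w, x⟫ ^ 2) :=
        mul_nonneg (by positivity) (by linarith)
      have : 0 ≤ Real.pi * (t / (1 + t)) * ⟪w, x⟫ ^ 2 := by positivity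
      linarith
  unfold Jl
  rw [← ofReal_integral_eq_lintegral_ofReal i2 (ae_of_all _ fun ξ => by positivity),
    ← ENNReal.ofReal_mul (by positivity), ← integral_const_mul]
  refine ENNReal.ofReal_le_ofReal (integral_mono_ae (i2.const_mul _)
    ((i3.const_mul _).const_mul _) ?_)
  filter_upwards [hD] with p hp
  rw [mul_assoc, mul_assoc]
  refine mul_le_mul_of_nonneg_left ?_ (by positivity)
  refine mul_le_mul_of_nonneg_left ?_ (by positivity)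
  rw [← Real.exp_add]
  refine Real.exp_le_exp.2 ?_
  have h1 : ⟪p.1 - p.2, x⟫ ^ 2 ≤ D ^ 2 :=
    (inner_sq_le hx).trans (by gcongr)
  have h2 : t / (1 + t) ≤ 1 := by
    rw [div_le_one (by positivity)]; linarith
  have h3 : (t / (1 + t)) * ⟪p.1 - p.2, x⟫ ^ 2 ≤ 1 * D ^ 2 :=
    mul_le_mul h2 h1 (by positivity) (by norm_num)
  have h4 : Real.pi * ((t / (1 + t)) * ⟪p.1 - p.2, x⟫ ^ 2) ≤ Real.pi * (1 * D ^ 2) :=
    mul_le_mul_of_nonneg_left h3 hpi.le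
  linarith

lemma pw (m : ℕ) (r : ℝ) (hr : 0 ≤ r) :
    Real.exp (-(Real.pi / 4 ^ m) * r ^ 2) / (1 + r) ≤ 2 * Real.exp Real.pi *
      ∑ k ∈ Finset.range (m + 1), (1 / 2 ^ k) * Real.exp (-(Real.pi / 4 ^ k) * r ^ 2) := by
  have hpi := Real.pi_pos
  have key : ∀ k ∈ Finset.range (m + 1), ∀ y : ℝ,
      y ≤ 2 * Real.exp Real.pi * ((1 / 2 ^ k) * Real.exp (-(Real.pi / 4 ^ k) * r ^ 2)) →
      y ≤ 2 * Real.exp Real.pi *
      ∑ k ∈ Finset.range (m + 1), (1 / 2 ^ k) * Real.exp (-(Real.pi / 4 ^ k) * r ^ 2) := by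
    intro k hk y hy
    refine hy.trans (mul_le_mul_of_nonneg_left ?_ (by positivity))
    exact Finset.single_le_sum (f := fun k => (1 / (2 : ℝ) ^ k) *
      Real.exp (-(Real.pi / 4 ^ k) * r ^ 2)) (fun i _ => by positivity) hk
  have hle : ∀ k : ℕ, Real.exp (-(Real.pi / 4 ^ k) * r ^ 2) ≤ 1 := fun k => by
    rw [Real.exp_le_one_iff]
    have : 0 ≤ Real.pi / 4 ^ k * r ^ 2 := by positivity
    linarith
  have hlow : ∀ k : ℕ, r ≤ 2 ^ k → Real.exp (-Real.pi) ≤ Real.exp (-(Real.pi / 4 ^ k) * r ^ 2) := by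
    intro k hk
    refine Real.exp_le_exp.2 ?_
    have h1 : r ^ 2 ≤ 4 ^ k := by
      calc r ^ 2 ≤ (2 ^ k) ^ 2 := by gcongr
        _ = 4 ^ k := by rw [← pow_mul, mul_comm, pow_mul]; norm_num
    have h2 : Real.pi / 4 ^ k * r ^ 2 ≤ Real.pi := by
      rw [div_mul_eq_mul_div, div_le_iff₀ (by positivity)]
      exact mul_le_mul_of_nonneg_left h1 hpi.le
    linarith
  have hee : Real.exp Real.pi * Real.exp (-Real.pi) = 1 := by rw [← Real.exp_add]; simp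
  rcases le_or_gt r 1 with h1 | h1
  · refine key 0 (by simp) _ ?_
    have h2 := hlow 0 (by simpa using h1)
    have h3 : Real.exp (-(Real.pi / 4 ^ m) * r ^ 2) / (1 + r) ≤ 1 := by
      rw [div_le_one (by positivity)]
      linarith [hle m]
    calc _ ≤ (1 : ℝ) := h3
      _ ≤ 2 * (Real.exp Real.pi * Real.exp (-Real.pi)) := by rw [hee]; norm_num
      _ ≤ _ := by
        rw [pow_zero] at h2
        rw [pow_zero, pow_zero, div_one, one_mul, mul_assoc]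
        gcongr
  · rcases lt_or_ge ((2 : ℝ) ^ m) r with h2 | h2
    · refine key m (by simp) _ ?_
      have h3 : (1 : ℝ) / (1 + r) ≤ 1 / 2 ^ m := by
        apply one_div_le_one_div_of_le (by positivity)
        linarith
      have h4 : 1 ≤ 2 * Real.exp Real.pi := by linarith [Real.one_le_exp hpi.le]
      calc Real.exp (-(Real.pi / 4 ^ m) * r ^ 2) / (1 + r)
          = (1 / (1 + r)) * Real.exp (-(Real.pi / 4 ^ m) * r ^ 2) := by ring
        _ ≤ (1 / 2 ^ m) * Real.exp (-(Real.pi / 4 ^ m) * r ^ 2) := by gcongr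
        _ = 1 * ((1 / 2 ^ m) * Real.exp (-(Real.pi / 4 ^ m) * r ^ 2)) := by ring
        _ ≤ _ := by gcongr
    · have hex : ∃ k : ℕ, r ≤ 2 ^ k := ⟨m, h2⟩
      classical
      set k := Nat.find hex with hk
      have hk1 : r ≤ 2 ^ k := Nat.find_spec hex
      have hkm : k ≤ m := Nat.find_min' hex h2
      have hk0 : k ≠ 0 := by
        intro h0
        rw [h0, pow_zero] at hk1
        linarith
      obtain ⟨j, hj⟩ := Nat.exists_eq_succ_of_ne_zero hk0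
      have hk2 : (2 : ℝ) ^ j < r := by
        have := Nat.find_min hex (m := j) (by omega)
        exact not_le.1 this
      refine key k (by simpa using Nat.lt_succ_of_le hkm) _ ?_
      have h3 : (1 : ℝ) / (1 + r) ≤ 1 / 2 ^ j := by
        apply one_div_le_one_div_of_le (by positivity)
        linarith
      have h5 := hlow k hk1
      have h6 : (1 : ℝ) / 2 ^ j = 2 * (1 / 2 ^ k) := by
        rw [hj, pow_succ]
        field_simp
      calc Real.exp (-(Real.pi / 4 ^ m) * r ^ 2) / (1 + r)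
          = (1 / (1 + r)) * Real.exp (-(Real.pi / 4 ^ m) * r ^ 2) := by ring
        _ ≤ (1 / 2 ^ j) * 1 := by gcongr; exact hle m
        _ = 2 * (1 / 2 ^ k) * (Real.exp Real.pi * Real.exp (-Real.pi)) := by rw [h6, hee]
        _ = 2 * Real.exp Real.pi * ((1 / 2 ^ k) * Real.exp (-Real.pi)) := by ring
        _ ≤ _ := by gcongr


/-- The averaged estimate: `ψ` is a family of directions such that
`∫ exp (-π ⟪ξ, ψ u⟫²) du ≤ C₁ / (1 + ‖ξ‖)`. -/
lemma averaged (μ : Measure E) [IsFiniteMeasure μ] (D : ℝ)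
    (hD : ∀ᵐ p ∂(μ.prod μ), ‖p.1 - p.2‖ ≤ D)
    {α : Type*} [MeasurableSpace α] (ν : Measure α) [SFinite ν] (ψ : α → E) (hψ : Measurable ψ)
    (hψ1 : ∀ᵐ u ∂ν, ‖ψ u‖ = 1) (C₁ : ℝ) (hC₁ : 0 ≤ C₁)
    (hν : ∀ ξ : E, ∫⁻ u, ENNReal.ofReal (Real.exp (-Real.pi * ⟪ξ, ψ u⟫ ^ 2)) ∂ν ≤
      ENNReal.ofReal (C₁ / (1 + ‖ξ‖)))
    (s C₂ : ℝ) (hs : s < (Module.finrank ℝ E : ℝ) - 1) (hC₂ : 0 ≤ C₂)
    (hI : ∀ k : ℕ, Il μ (4 ^ k) ≤ ENNReal.ofReal (C₂ * (2 : ℝ) ^ (-(k : ℝ) * s))) :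
    ∃ C₃ : ℝ, 0 ≤ C₃ ∧ ∀ m : ℕ, ∫⁻ u, Jl μ (ψ u) (4 ^ m) ∂ν ≤
      ENNReal.ofReal (C₃ * (2 : ℝ) ^ (-(m : ℝ) * s)) := by
  have hpi := Real.pi_pos
  set n : ℝ := (Module.finrank ℝ E : ℝ) with hn
  set β : ℝ := n - 1 - s with hβ
  have hβ0 : 0 < β := by rw [hβ]; linarith
  set b : ℝ := (2 : ℝ) ^ β with hb
  have hb1 : 1 < b := Real.one_lt_rpow (by norm_num) hβ0
  set M : ℝ := C₁ * (2 * Real.exp Real.pi) * C₂ * (b / (b - 1)) with hM
  have hM0 : 0 ≤ M := by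
    have : 0 ≤ b / (b - 1) := div_nonneg (by linarith) (by linarith)
    positivity
  -- the upper bound
  have hup : ∀ m : ℕ, ∫⁻ u, (∫⁻ ξ, ENNReal.ofReal (Real.exp (-(Real.pi / 4 ^ m) * ‖ξ‖ ^ 2) *
        Real.exp (-Real.pi * ⟪ξ, ψ u⟫ ^ 2) * ‖ft μ ξ‖ ^ 2)) ∂ν ≤ ENNReal.ofReal (M * b ^ m) := by
    intro m
    have hmeas : Measurable (fun q : α × E => ENNReal.ofReal (Real.exp (-(Real.pi / 4 ^ m) * ‖q.2‖ ^ 2) *
        Real.exp (-Real.pi * ⟪q.2, ψ q.1⟫ ^ 2) * ‖ft μ q.2‖ ^ 2)) := by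
      have := measurable_ft μ
      refine ENNReal.measurable_ofReal.comp (Measurable.mul (Measurable.mul ?_ ?_) ?_)
      · fun_prop
      · refine Real.measurable_exp.comp (Measurable.const_mul (Measurable.pow_const ?_ 2) _)
        exact Measurable.inner measurable_snd (hψ.comp measurable_fst)
      · exact ((this.comp measurable_snd).norm).pow_const 2
    rw [lintegral_lintegral_swap hmeas.aemeasurable]
    have h1 : ∀ ξ : E, ∫⁻ u, ENNReal.ofReal (Real.exp (-(Real.pi / 4 ^ m) * ‖ξ‖ ^ 2) *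
        Real.exp (-Real.pi * ⟪ξ, ψ u⟫ ^ 2) * ‖ft μ ξ‖ ^ 2) ∂ν ≤
        ENNReal.ofReal (C₁ * (2 * Real.exp Real.pi)) * ∑ k ∈ Finset.range (m + 1),
          ENNReal.ofReal (1 / 2 ^ k) *
          ENNReal.ofReal (Real.exp (-(Real.pi / 4 ^ k) * ‖ξ‖ ^ 2) * ‖ft μ ξ‖ ^ 2) := by
      intro ξ
      have e1 : ∀ u, ENNReal.ofReal (Real.exp (-(Real.pi / 4 ^ m) * ‖ξ‖ ^ 2) *
        Real.exp (-Real.pi * ⟪ξ, ψ u⟫ ^ 2) * ‖ft μ ξ‖ ^ 2) =
          ENNReal.ofReal (Real.exp (-(Real.pi / 4 ^ m) * ‖ξ‖ ^ 2) * ‖ft μ ξ‖ ^ 2) *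
          ENNReal.ofReal (Real.exp (-Real.pi * ⟪ξ, ψ u⟫ ^ 2)) := by
        intro u
        rw [← ENNReal.ofReal_mul (by positivity)]
        congr 1
        ring
      simp_rw [e1]
      rw [lintegral_const_mul' _ _ ENNReal.ofReal_ne_top]
      refine (mul_le_mul_right (hν ξ) _).trans ?_
      rw [← ENNReal.ofReal_mul (by positivity)]
      have e2 : ∑ k ∈ Finset.range (m + 1), ENNReal.ofReal (1 / 2 ^ k) *
          ENNReal.ofReal (Real.exp (-(Real.pi / 4 ^ k) * ‖ξ‖ ^ 2) * ‖ft μ ξ‖ ^ 2) =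
          ENNReal.ofReal (∑ k ∈ Finset.range (m + 1), (1 / 2 ^ k) *
          (Real.exp (-(Real.pi / 4 ^ k) * ‖ξ‖ ^ 2) * ‖ft μ ξ‖ ^ 2)) := by
        rw [ENNReal.ofReal_sum_of_nonneg (fun k _ => by positivity)]
        refine Finset.sum_congr rfl fun k _ => ?_
        rw [← ENNReal.ofReal_mul (by positivity)]
      rw [e2, ← ENNReal.ofReal_mul (by positivity)]
      refine ENNReal.ofReal_le_ofReal ?_
      have h3 := pw m ‖ξ‖ (norm_nonneg _)
      calc Real.exp (-(Real.pi / 4 ^ m) * ‖ξ‖ ^ 2) * ‖ft μ ξ‖ ^ 2 * (C₁ / (1 + ‖ξ‖))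
          = C₁ * ‖ft μ ξ‖ ^ 2 * (Real.exp (-(Real.pi / 4 ^ m) * ‖ξ‖ ^ 2) / (1 + ‖ξ‖)) := by ring
        _ ≤ C₁ * ‖ft μ ξ‖ ^ 2 * (2 * Real.exp Real.pi *
            ∑ k ∈ Finset.range (m + 1), (1 / 2 ^ k) * Real.exp (-(Real.pi / 4 ^ k) * ‖ξ‖ ^ 2)) := by
          gcongr
        _ = _ := by
          rw [show C₁ * ‖ft μ ξ‖ ^ 2 * (2 * Real.exp Real.pi *
            ∑ k ∈ Finset.range (m + 1), (1 / 2 ^ k) * Real.exp (-(Real.pi / 4 ^ k) * ‖ξ‖ ^ 2)) =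
            C₁ * (2 * Real.exp Real.pi) * ((∑ k ∈ Finset.range (m + 1), (1 / 2 ^ k) *
              Real.exp (-(Real.pi / 4 ^ k) * ‖ξ‖ ^ 2)) * ‖ft μ ξ‖ ^ 2) by ring, Finset.sum_mul]
          congr 1
          refine Finset.sum_congr rfl fun k _ => ?_
          ring
    refine (lintegral_mono h1).trans ?_
    rw [lintegral_const_mul' _ _ ENNReal.ofReal_ne_top, lintegral_finsetSum']
    · have h2 : ∀ k ∈ Finset.range (m + 1), ∫⁻ ξ, ENNReal.ofReal (1 / 2 ^ k) *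
          ENNReal.ofReal (Real.exp (-(Real.pi / 4 ^ k) * ‖ξ‖ ^ 2) * ‖ft μ ξ‖ ^ 2) ≤
          ENNReal.ofReal (C₂ * b ^ k) := by
        intro k _
        rw [lintegral_const_mul' _ _ ENNReal.ofReal_ne_top, iso_eq μ (by positivity)]
        refine (mul_le_mul_right (mul_le_mul_right (hI k) _) _).trans ?_
        rw [← ENNReal.ofReal_mul (by positivity), ← ENNReal.ofReal_mul (by positivity)]
        refine ENNReal.ofReal_le_ofReal (le_of_eq ?_)
        have e3 : ((4 : ℝ) ^ k) ^ (n / 2) = (2 : ℝ) ^ ((k : ℝ) * n) := by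
          rw [show (4 : ℝ) = 2 ^ (2 : ℝ) by norm_num, ← Real.rpow_natCast, ← Real.rpow_mul (by norm_num),
            ← Real.rpow_mul (by norm_num)]
          congr 1
          ring
        have e4 : (1 : ℝ) / 2 ^ k = (2 : ℝ) ^ (-(k : ℝ)) := by
          rw [Real.rpow_neg (by norm_num), Real.rpow_natCast, one_div]
        have e5 : b ^ k = (2 : ℝ) ^ ((k : ℝ) * (n - 1 - s)) := by
          rw [hb, ← Real.rpow_natCast, ← Real.rpow_mul (by norm_num)]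
          congr 1
          rw [hβ]; ring
        rw [e3, e4, e5]
        rw [show (2 : ℝ) ^ (-(k : ℝ)) * ((2 : ℝ) ^ ((k : ℝ) * n) * (C₂ * (2 : ℝ) ^ (-(k : ℝ) * s))) =
          C₂ * ((2 : ℝ) ^ (-(k : ℝ)) * (2 : ℝ) ^ ((k : ℝ) * n) * (2 : ℝ) ^ (-(k : ℝ) * s)) by ring]
        rw [← Real.rpow_add (by norm_num), ← Real.rpow_add (by norm_num)]
        congr 2
        ring
      refine (mul_le_mul_right (Finset.sum_le_sum h2) _).trans ?_
      rw [← ENNReal.ofReal_sum_of_nonneg (fun k _ => by positivity), ← ENNReal.ofReal_mul (by positivity)]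
      refine ENNReal.ofReal_le_ofReal ?_
      rw [← Finset.mul_sum, geom_sum_eq hb1.ne', hM]
      have h5 : (b ^ (m + 1) - 1) / (b - 1) ≤ b / (b - 1) * b ^ m := by
        rw [div_mul_eq_mul_div, div_le_div_iff_of_pos_right (by linarith), pow_succ]
        linarith
      calc C₁ * (2 * Real.exp Real.pi) * (C₂ * ((b ^ (m + 1) - 1) / (b - 1)))
          ≤ C₁ * (2 * Real.exp Real.pi) * (C₂ * (b / (b - 1) * b ^ m)) := by gcongr
        _ = _ := by ring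
    · intro k _
      have := measurable_ft μ
      fun_prop
  refine ⟨M * (2 * Real.exp (Real.pi * D ^ 2)), by positivity, fun m => ?_⟩
  set c : ℝ := ((4 : ℝ) ^ m) ^ (n / 2) * Real.sqrt (1 / (1 + 4 ^ m)) * Real.exp (-Real.pi * D ^ 2) with hc
  have hc0 : 0 < c := by positivity
  have h1 : ENNReal.ofReal c * ∫⁻ u, Jl μ (ψ u) (4 ^ m) ∂ν ≤ ENNReal.ofReal (M * b ^ m) := by
    rw [← lintegral_const_mul' _ _ ENNReal.ofReal_ne_top]
    refine le_trans ?_ (hup m)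
    refine lintegral_mono_ae ?_
    filter_upwards [hψ1] with u hu
    exact aniso_lower μ (by positivity) (ψ u) hu D hD
  have h2 : ∫⁻ u, Jl μ (ψ u) (4 ^ m) ∂ν ≤ ENNReal.ofReal (M * b ^ m) / ENNReal.ofReal c := by
    rw [ENNReal.le_div_iff_mul_le (Or.inl (by simpa using hc0)) (Or.inl ENNReal.ofReal_ne_top), mul_comm]
    exact h1
  refine h2.trans ?_
  rw [← ENNReal.ofReal_div_of_pos hc0]
  refine ENNReal.ofReal_le_ofReal ?_
  rw [div_le_iff₀ hc0]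
  have e3 : ((4 : ℝ) ^ m) ^ (n / 2) = (2 : ℝ) ^ ((m : ℝ) * n) := by
    rw [show (4 : ℝ) = 2 ^ (2 : ℝ) by norm_num, ← Real.rpow_natCast, ← Real.rpow_mul (by norm_num),
      ← Real.rpow_mul (by norm_num)]
    congr 1
    ring
  have e5 : b ^ m = (2 : ℝ) ^ ((m : ℝ) * (n - 1 - s)) := by
    rw [hb, ← Real.rpow_natCast, ← Real.rpow_mul (by norm_num)]
    congr 1
    rw [hβ]; ring
  have e6 : (1 / 2) * (2 : ℝ) ^ (-(m : ℝ)) ≤ Real.sqrt (1 / (1 + 4 ^ m)) := by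
    apply Real.le_sqrt_of_sq_le
    rw [mul_pow, Real.rpow_neg (by norm_num), Real.rpow_natCast, inv_pow, ← pow_mul, mul_comm m 2, pow_mul]
    norm_num
    rw [one_div, ← mul_inv]
    apply inv_anti₀ (by positivity)
    have : (1 : ℝ) ≤ 4 ^ m := one_le_pow₀ (by norm_num)
    linarith
  have e7 : Real.exp (Real.pi * D ^ 2) * Real.exp (-Real.pi * D ^ 2) = 1 := by
    rw [← Real.exp_add]; simp
  rw [hc, e3, e5]
  calc M * (2 : ℝ) ^ ((m : ℝ) * (n - 1 - s))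
      = M * ((2 : ℝ) ^ (-(m : ℝ) * s) * (2 : ℝ) ^ ((m : ℝ) * n) * (2 : ℝ) ^ (-(m : ℝ))) := by
        rw [← Real.rpow_add (by norm_num), ← Real.rpow_add (by norm_num)]
        congr 2
        ring
    _ = M * 2 * (2 : ℝ) ^ (-(m : ℝ) * s) * ((2 : ℝ) ^ ((m : ℝ) * n) * ((1 / 2) * (2 : ℝ) ^ (-(m : ℝ))) *
          (Real.exp (Real.pi * D ^ 2) * Real.exp (-Real.pi * D ^ 2))) := by
        rw [e7]; ring
    _ = M * (2 * Real.exp (Real.pi * D ^ 2)) * (2 : ℝ) ^ (-(m : ℝ) * s) *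
        ((2 : ℝ) ^ ((m : ℝ) * n) * ((1 / 2) * (2 : ℝ) ^ (-(m : ℝ))) * Real.exp (-Real.pi * D ^ 2)) := by
        ring
    _ ≤ _ := by gcongr

end Pool.Agent.Helper28.TP
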