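import Pool.Agent.Helper28.TP.Cubes
import Pool.Agent.Helper28.TP.Greedy

/-! The Frostman lemma for analytic sets. -/

set_option linter.unusedSectionVars false

open MeasureTheory Measure Set Metric Filter Topology
open scoped ENNReal NNReal

namespace Pool.Agent.Helper28.TP

/-- neighbours of a cube index -/
def nbr {n : ℕ} (a : Fin n → ℤ) (e : Fin n → Fin 3) : Fin n → ℤ := fun j => a j + ((e j : ℕ) : ℤ) - 1

lemma exists_nbr {n k : ℕ} {x y : Eu n} (h : ∀ j, |x j - y j| < ((2 : ℝ) ^ k)⁻¹) :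
    ∃ e : Fin n → Fin 3, didx k x = nbr (didx k y) e := by
  have h1 : ∀ j, ∃ i : Fin 3, ⌊(2 : ℝ) ^ k * x j⌋ = ⌊(2 : ℝ) ^ k * y j⌋ + ((i : ℕ) : ℤ) - 1 := by
    intro j
    have h2 := h j
    rw [← one_div, lt_div_iff₀ (by positivity)] at h2
    have h3 : |(2 : ℝ) ^ k * x j - (2 : ℝ) ^ k * y j| < 1 := by
      rw [← mul_sub, abs_mul, abs_of_pos (by positivity : (0 : ℝ) < 2 ^ k), mul_comm]
      exact h2
    rw [abs_lt] at h3
    set a := (2 : ℝ) ^ k * x j
    set b := (2 : ℝ) ^ k * y j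
    have h4 : ⌊a⌋ ≤ ⌊b⌋ + 1 := by
      have : ⌊a⌋ < ⌊b⌋ + 1 + 1 := by
        rw [Int.floor_lt]
        push_cast
        linarith [Int.lt_floor_add_one b]
      omega
    have h5 : ⌊b⌋ ≤ ⌊a⌋ + 1 := by
      have : ⌊b⌋ < ⌊a⌋ + 1 + 1 := by
        rw [Int.floor_lt]
        push_cast
        linarith [Int.lt_floor_add_one a]
      omega
    refine ⟨⟨(⌊a⌋ - ⌊b⌋ + 1).toNat, by omega⟩, ?_⟩
    simp only
    omega
  choose e he using h1
  exact ⟨e, funext fun j => he j⟩

lemma M_triple (n : ℕ) (s : ℝ) (C : Finset (ℕ × (Fin n → ℤ))) (G : Set (Eu n))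
    (hG : ∀ x ∈ G, ∃ c ∈ C, ∃ e : Fin n → Fin 3, didx c.1 x = nbr c.2 e) :
    (dnet n).M (W n s) G ≤ ENNReal.ofReal (3 ^ n * ∑ c ∈ C, wt s c.1) := by
  set U : Set (ℕ × (Fin n → ℤ)) := ⋃ c ∈ C, ⋃ e : Fin n → Fin 3, {(c.1, nbr c.2 e)} with hU
  have hcov : G ⊆ (dnet n).cov U := by
    intro x hx
    obtain ⟨c, hc, e, he⟩ := hG x hx
    refine ⟨(c.1, nbr c.2 e), ?_, he⟩
    rw [hU]
    exact mem_biUnion hc (mem_iUnion.2 ⟨e, rfl⟩)
  refine ((dnet n).M_le (W n s) hcov).trans ?_
  rw [hU]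
  calc W n s (⋃ c ∈ C, ⋃ e : Fin n → Fin 3, {(c.1, nbr c.2 e)})
      ≤ ∑ c ∈ C, W n s (⋃ e : Fin n → Fin 3, {(c.1, nbr c.2 e)}) := measure_biUnion_finset_le _ _
    _ ≤ ∑ c ∈ C, ∑ e : Fin n → Fin 3, W n s {(c.1, nbr c.2 e)} :=
        Finset.sum_le_sum fun c _ => measure_iUnion_fintype_le _ _
    _ = ∑ c ∈ C, ENNReal.ofReal (3 ^ n * wt s c.1) := by
        refine Finset.sum_congr rfl fun c _ => ?_
        simp only [W_singleton]
        rw [Finset.sum_const, Finset.card_univ, Fintype.card_fun, Fintype.card_fin, Fintype.card_fin,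
          nsmul_eq_mul, ENNReal.ofReal_mul (by positivity)]
        congr 1
        rw [ENNReal.ofReal_pow (by norm_num)]
        push_cast
        norm_num
    _ = ENNReal.ofReal (3 ^ n * ∑ c ∈ C, wt s c.1) := by
        rw [← ENNReal.ofReal_sum_of_nonneg (fun c _ => by have := wt_pos s c.1; positivity),
          Finset.mul_sum]

lemma finite_idx {n : ℕ} (k : ℕ) (K : Set (Eu n)) (hK : IsCompact K) : (didx k '' K).Finite := by
  obtain ⟨R, hR⟩ := hK.isBounded.exists_norm_le
  have h1 : didx k '' K ⊆ Set.pi univ fun _ : Fin n => Set.Icc ⌊-((2 : ℝ) ^ k * R)⌋ ⌊(2 : ℝ) ^ k * R⌋ := by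
    rintro _ ⟨x, hx, rfl⟩ j _
    have h2 : |x j| ≤ R := by
      have : ‖x j‖ ≤ ‖x‖ := PiLp.norm_apply_le x j
      rw [Real.norm_eq_abs] at this
      exact this.trans (hR x hx)
    rw [abs_le] at h2
    have h3 : (0 : ℝ) < 2 ^ k := by positivity
    constructor
    · refine Int.floor_le_floor ?_
      nlinarith
    · refine Int.floor_le_floor ?_
      nlinarith
  exact (Set.Finite.pi' fun j => Set.finite_Icc _ _).subset (by
    intro a ha j
    exact h1 ha j (mem_univ j))

/-- a discrete measure at level `m` -/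
lemma level_measure {n : ℕ} {s : ℝ} (K : Set (Eu n)) (hK : IsCompact K) {c : ℝ} (hc0 : 0 < c)
    (hc : ∀ G, IsOpen G → K ⊆ G → ENNReal.ofReal c < (dnet n).M (W n s) G) (m : ℕ) :
    ∃ μ : ProbabilityMeasure K, ∀ k ≤ m, ∀ x : Eu n,
      (μ : Measure K) ((↑) ⁻¹' (ball x ((2 : ℝ) ^ k)⁻¹) : Set K) ≤
        ENNReal.ofReal (3 ^ n * 3 ^ n / c * wt s k) := by
  classical
  -- representatives
  obtain ⟨F, hF⟩ : ∃ F : Finset K, ∀ x : K, ∃ y ∈ F, didx m (y : Eu n) = didx m (x : Eu n) := by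
    have hfin : ((fun x : K => didx m (x : Eu n)) '' univ).Finite := by
      refine (finite_idx m K hK).subset ?_
      rintro _ ⟨x, _, rfl⟩
      exact ⟨x, x.2, rfl⟩
    obtain ⟨F, _, hF⟩ := Finset.subset_set_image_iff.1 (hfin.coe_toFinset.subset)
    refine ⟨F, fun x => ?_⟩
    have : didx m (x : Eu n) ∈ hfin.toFinset := by
      rw [Set.Finite.mem_toFinset]
      exact ⟨x, mem_univ _, rfl⟩
    rw [← hF, Finset.mem_image] at this
    exact this
  obtain ⟨ν, hν0, hν1, C, hC1, hC2, hC3⟩ := greedy (fun k (x : K) => didx k (x : Eu n))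
    (fun k k' (x : K) (y : K) hk h => didx_nest k k' (x : Eu n) (y : Eu n) hk h) m (wt s) (fun l => (wt_pos s l).le) F
  -- lower bound of the mass
  have hmass : c / 3 ^ n < ∑ y ∈ F, ν y := by
    set G : Set (Eu n) := thickening ((2 : ℝ) ^ m)⁻¹ K with hG
    have h1 := hc G isOpen_thickening (self_subset_thickening (by positivity) K)
    have h2 := M_triple n s C G (fun x hx => by
      obtain ⟨y, hyK, hxy⟩ := mem_thickening_iff.1 hx
      obtain ⟨z, hz, hzy⟩ := hF ⟨y, hyK⟩
      obtain ⟨q, hq, hqz⟩ := hC2 z hz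
      refine ⟨q, hq, ?_⟩
      have hle := hC1 q hq
      have h3 : didx q.1 y = q.2 := by
        rw [← hqz]
        exact didx_nest q.1 m y z hle hzy.symm
      rw [← h3]
      refine exists_nbr fun j => ?_
      have h4 : |x j - y j| ≤ dist x y := by
        have : ‖(x - y) j‖ ≤ ‖x - y‖ := PiLp.norm_apply_le (x - y) j
        rw [dist_eq_norm]
        simpa [Real.norm_eq_abs] using this
      refine h4.trans_lt (hxy.trans_le ?_)
      have h5 : (2 : ℝ) ^ q.1 ≤ 2 ^ m := pow_le_pow_right₀ (by norm_num) hle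
      gcongr)
    have h3 := h1.trans_le h2
    rw [ENNReal.ofReal_lt_ofReal_iff_of_nonneg hc0.le] at h3
    rw [div_lt_iff₀ (by positivity)]
    calc c < 3 ^ n * ∑ c ∈ C, wt s c.1 := h3
      _ ≤ 3 ^ n * ∑ y ∈ F, ν y := by gcongr
      _ = _ := by ring
  set T : ℝ := ∑ y ∈ F, ν y with hT
  have hT0 : 0 < T := lt_trans (by positivity) hmass
  set Q : Measure K := ∑ y ∈ F, ENNReal.ofReal (ν y / T) • Measure.dirac y with hQ
  have hQprob : IsProbabilityMeasure Q := by
    constructor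
    rw [hQ, Measure.finsetSum_apply]
    simp only [Measure.smul_apply, measure_univ, smul_eq_mul, mul_one]
    rw [← ENNReal.ofReal_sum_of_nonneg (fun y _ => by have := hν0 y; positivity),
      ← Finset.sum_div, ← hT, div_self hT0.ne', ENNReal.ofReal_one]
  refine ⟨⟨Q, hQprob⟩, fun k hk x => ?_⟩
  change Q _ ≤ _
  -- the cells
  have hcell : ∀ a : Fin n → ℤ, Q {y : K | didx k (y : Eu n) = a} ≤ ENNReal.ofReal (wt s k / T) := by
    intro a
    rw [hQ, Measure.finsetSum_apply]
    have hms : MeasurableSet {y : K | didx k (y : Eu n) = a} := by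
      have h1 : Measurable fun y : K => didx k (y : Eu n) := by
        refine measurable_pi_lambda _ fun j => ?_
        unfold didx
        exact Int.measurable_floor.comp (by fun_prop)
      exact h1 (measurableSet_singleton a)
    calc ∑ y ∈ F, (ENNReal.ofReal (ν y / T) • Measure.dirac y) {y : K | didx k (y : Eu n) = a}
        = ∑ y ∈ F, if didx k (y : Eu n) = a then ENNReal.ofReal (ν y / T) else 0 := by
          refine Finset.sum_congr rfl fun y _ => ?_
          rw [Measure.smul_apply, Measure.dirac_apply' _ hms, smul_eq_mul]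
          by_cases h : didx k (y : Eu n) = a <;> simp [h]
      _ = ∑ y ∈ F.filter (fun y : K => didx k (y : Eu n) = a), ENNReal.ofReal (ν y / T) := by
          rw [Finset.sum_filter]
      _ = ENNReal.ofReal ((∑ y ∈ F.filter (fun y : K => didx k (y : Eu n) = a), ν y) / T) := by
          rw [← ENNReal.ofReal_sum_of_nonneg (fun y _ => by have := hν0 y; positivity),
            Finset.sum_div]
      _ ≤ _ := by
          refine ENNReal.ofReal_le_ofReal ?_
          gcongr
          exact hν1 k hk a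
  calc Q ((↑) ⁻¹' (ball x ((2 : ℝ) ^ k)⁻¹) : Set K)
      ≤ Q (⋃ e : Fin n → Fin 3, {y : K | didx k (y : Eu n) = nbr (didx k x) e}) := by
        refine measure_mono fun y hy => ?_
        have hy' : dist (y : Eu n) x < ((2 : ℝ) ^ k)⁻¹ := hy
        obtain ⟨e, he⟩ := exists_nbr (x := (y : Eu n)) (y := x) (k := k) fun j => by
          have h4 : |(y : Eu n) j - x j| ≤ dist (y : Eu n) x := by
            have : ‖((y : Eu n) - x) j‖ ≤ ‖(y : Eu n) - x‖ := PiLp.norm_apply_le ((y : Eu n) - x) j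
            rw [dist_eq_norm]
            simpa [Real.norm_eq_abs] using this
          exact h4.trans_lt hy'
        exact mem_iUnion.2 ⟨e, he⟩
    _ ≤ ∑ e : Fin n → Fin 3, Q {y : K | didx k (y : Eu n) = nbr (didx k x) e} :=
        measure_iUnion_fintype_le _ _
    _ ≤ ∑ _e : Fin n → Fin 3, ENNReal.ofReal (wt s k / T) := Finset.sum_le_sum fun e _ => hcell _
    _ = ENNReal.ofReal (3 ^ n * (wt s k / T)) := by
        rw [Finset.sum_const, Finset.card_univ, Fintype.card_fun, Fintype.card_fin, Fintype.card_fin,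
          nsmul_eq_mul, ENNReal.ofReal_mul (by positivity)]
        congr 1
        rw [ENNReal.ofReal_pow (by norm_num)]
        push_cast
        norm_num
    _ ≤ _ := by
        refine ENNReal.ofReal_le_ofReal ?_
        have hw := wt_pos s k
        rw [mul_div_assoc (3 ^ n) (3 ^ n) c, mul_assoc]
        refine mul_le_mul_of_nonneg_left ?_ (by positivity)
        rw [div_le_iff₀ hT0]
        have h6 : 1 ≤ 3 ^ n / c * T := by
          rw [div_mul_eq_mul_div, le_div_iff₀ hc0, one_mul]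
          rw [div_lt_iff₀ (by positivity)] at hmass
          linarith
        calc wt s k = 1 * wt s k := (one_mul _).symm
          _ ≤ (3 ^ n / c * T) * wt s k := by gcongr
          _ = _ := by ring

/-- The Frostman lemma for analytic sets. -/
theorem frostman {n : ℕ} {s : ℝ} (hs : 0 < s) (Z : Set (Eu n)) (hZ : AnalyticSet Z)
    (hdim : ENNReal.ofReal s < dimH Z) :
    ∃ K ⊆ Z, IsCompact K ∧ ∃ μ : Measure (Eu n), IsProbabilityMeasure μ ∧ μ Kᶜ = 0 ∧
      ∃ C : ℝ, 0 ≤ C ∧ ∀ x, ∀ r : ℝ, 0 < r → μ (ball x r) ≤ ENNReal.ofReal (C * r ^ s) := by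
  have hM : 0 < (dnet n).M (W n s) Z := by
    rw [pos_iff_ne_zero]
    intro h0
    have h1 := hausdorff_zero_of_M n hs Z h0
    have h2 : dimH Z ≤ ((Real.toNNReal s : ℝ≥0) : ℝ≥0∞) := by
      refine dimH_le_of_hausdorffMeasure_ne_top ?_
      rw [Real.coe_toNNReal s hs.le, h1]
      simp
    exact absurd hdim (not_lt.2 h2)
  obtain ⟨c', hc'0, hc'⟩ := ENNReal.lt_iff_exists_nnreal_btwn.1 hM
  have hc0 : 0 < (c' : ℝ) := by exact_mod_cast hc'0
  obtain ⟨K, hKZ, hK, hG⟩ := (dnet n).compact_of_analytic (W n s) hZ hc'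
  set c : ℝ := (c' : ℝ) with hcdef
  have hG' : ∀ G, IsOpen G → K ⊆ G → ENNReal.ofReal c < (dnet n).M (W n s) G := by
    intro G h1 h2
    rw [hcdef, ENNReal.ofReal_coe_nnreal]
    exact hG G h1 h2
  choose P hP using level_measure K hK hc0 hG'
  have : CompactSpace K := isCompact_iff_compactSpace.1 hK
  obtain ⟨μ, _, hμ⟩ := isCompact_univ.ultrafilter_le_nhds ((hyperfilter ℕ).map P)
    (by simp)
  have hlim : Tendsto P (hyperfilter ℕ : Filter ℕ) (𝓝 μ) := by
    rwa [Ultrafilter.coe_map] at hμ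
  have hball : ∀ k : ℕ, ∀ x : Eu n, (μ : Measure K) ((↑) ⁻¹' (ball x ((2 : ℝ) ^ k)⁻¹) : Set K) ≤
      ENNReal.ofReal (3 ^ n * 3 ^ n / c * wt s k) := by
    intro k x
    have h1 := ProbabilityMeasure.le_liminf_measure_open_of_tendsto hlim
      (G := ((↑) ⁻¹' (ball x ((2 : ℝ) ^ k)⁻¹) : Set K)) (isOpen_ball.preimage continuous_subtype_val)
    refine h1.trans ?_
    refine liminf_le_of_frequently_le' ?_
    refine Eventually.frequently ?_
    apply Nat.hyperfilter_le_atTop
    filter_upwards [eventually_ge_atTop k] with m hm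
    exact hP m k hm x
  refine ⟨K, hKZ, hK, (μ : Measure K).map (↑), ?_, ?_, max 1 (3 ^ n * 3 ^ n / c * 2 ^ s), by positivity, ?_⟩
  · exact Measure.isProbabilityMeasure_map measurable_subtype_coe.aemeasurable
  · rw [Measure.map_apply measurable_subtype_coe hK.measurableSet.compl]
    simp
  · intro x r hr
    rw [Measure.map_apply measurable_subtype_coe measurableSet_ball]
    rcases le_or_gt r 1 with h1 | h1
    · obtain ⟨k, hk1, hk2⟩ : ∃ k : ℕ, r ≤ ((2 : ℝ) ^ k)⁻¹ ∧ ((2 : ℝ) ^ (k + 1))⁻¹ < r := by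
        obtain ⟨k, hk1, hk2⟩ := exists_nat_pow_near_of_lt_one hr h1 (y := (2 : ℝ)⁻¹) (by norm_num) (by norm_num)
        exact ⟨k, by rw [← inv_pow]; exact hk2, by rw [← inv_pow]; exact hk1⟩
      calc (μ : Measure K) ((↑) ⁻¹' (ball x r) : Set K)
          ≤ (μ : Measure K) ((↑) ⁻¹' (ball x ((2 : ℝ) ^ k)⁻¹) : Set K) :=
            measure_mono (preimage_mono (ball_subset_ball hk1))
        _ ≤ _ := hball k x
        _ ≤ _ := by
          refine ENNReal.ofReal_le_ofReal ?_
          have h2 : wt s k ≤ 2 ^ s * r ^ s := by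
            rw [wt_eq, ← Real.mul_rpow (by norm_num) hr.le]
            refine Real.rpow_le_rpow (by positivity) ?_ hs.le
            rw [pow_succ, mul_inv] at hk2
            linarith
          calc 3 ^ n * 3 ^ n / c * wt s k ≤ 3 ^ n * 3 ^ n / c * (2 ^ s * r ^ s) := by gcongr
            _ = (3 ^ n * 3 ^ n / c * 2 ^ s) * r ^ s := by ring
            _ ≤ _ := by
              gcongr
              exact le_max_right _ _
    · refine prob_le_one.trans ?_
      rw [← ENNReal.ofReal_one]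
      refine ENNReal.ofReal_le_ofReal ?_
      have h2 : 1 ≤ r ^ s := Real.one_le_rpow h1.le hs.le
      have h3 : 1 ≤ max 1 (3 ^ n * 3 ^ n / c * (2 : ℝ) ^ s) := le_max_left _ _
      nlinarith

end Pool.Agent.Helper28.TP
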