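import Mathlib

/-! Gaussian energy identities for finite measures on a Euclidean space. -/

set_option linter.unusedSectionVars false

open MeasureTheory Measure Set
open scoped ENNReal NNReal RealInnerProductSpace

namespace Pool.Agent.Helper28.TP

variable {E : Type*} [NormedAddCommGroup E] [InnerProductSpace ℝ E] [FiniteDimensional ℝ E]
  [MeasurableSpace E] [BorelSpace E]

/-- the character `exp (2 π i ⟪ξ, u⟫)` -/
noncomputable def ee (ξ u : E) : ℂ := Complex.exp (2 * Real.pi * Complex.I * (⟪ξ, u⟫ : ℝ))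

/-- Fourier transform of a measure -/
noncomputable def ft (μ : Measure E) (ξ : E) : ℂ := ∫ u, ee ξ u ∂μ

lemma norm_ee (ξ u : E) : ‖ee ξ u‖ = 1 := by
  unfold ee
  rw [show (2 * Real.pi * Complex.I * (⟪ξ, u⟫ : ℝ) : ℂ) = ((2 * Real.pi * ⟪ξ, u⟫ : ℝ) : ℂ) * Complex.I by
    push_cast; ring]
  exact Complex.norm_exp_ofReal_mul_I _

lemma continuous_ee : Continuous fun p : E × E => ee p.1 p.2 := by
  unfold ee
  fun_prop

lemma ee_sub (ξ u v : E) : ee ξ (u - v) = ee ξ u * (starRingEnd ℂ) (ee ξ v) := by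
  unfold ee
  rw [← Complex.exp_conj, ← Complex.exp_add]
  congr 1
  simp only [map_mul, Complex.conj_ofReal, Complex.conj_I, map_ofNat, inner_sub_right]
  push_cast
  ring

lemma normSq_ft (μ : Measure E) [IsFiniteMeasure μ] (ξ : E) :
    ((‖ft μ ξ‖ ^ 2 : ℝ) : ℂ) = ∫ p, ee ξ (p.1 - p.2) ∂(μ.prod μ) := by
  simp_rw [ee_sub]
  rw [integral_prod_mul (f := fun u => ee ξ u) (g := fun v => (starRingEnd ℂ) (ee ξ v)),
    integral_conj]
  push_cast
  rw [Complex.mul_conj']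
  rfl

lemma measurable_ft (μ : Measure E) [IsFiniteMeasure μ] : Measurable (ft μ) := by
  have : StronglyMeasurable (fun ξ : E => ∫ u, ee ξ u ∂μ) :=
    (continuous_ee (E := E)).stronglyMeasurable.integral_prod_right'
  exact this.measurable

lemma parseval (μ : Measure E) [IsFiniteMeasure μ] (G : E → ℝ) (hG : Integrable G) :
    ∫ ξ, (G ξ : ℂ) * ((‖ft μ ξ‖ ^ 2 : ℝ) : ℂ) =
      ∫ p, (∫ ξ, (G ξ : ℂ) * ee ξ (p.1 - p.2)) ∂(μ.prod μ) := by
  simp_rw [normSq_ft, ← integral_const_mul]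
  rw [integral_integral_swap]
  have h1 : Integrable (fun q : E × (E × E) => (G q.1 : ℂ) * (1 : ℂ)) (volume.prod (μ.prod μ)) :=
    Integrable.mul_prod (f := fun ξ => (G ξ : ℂ)) (g := fun _ : E × E => (1 : ℂ)) hG.ofReal
      (integrable_const _)
  have h2 : AEStronglyMeasurable (fun q : E × (E × E) => ee q.1 (q.2.1 - q.2.2))
      (volume.prod (μ.prod μ)) := by
    refine Continuous.aestronglyMeasurable ?_
    exact continuous_ee.comp (continuous_fst.prodMk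
      ((continuous_fst.comp continuous_snd).sub (continuous_snd.comp continuous_snd)))
  have h3 := h1.mul_bdd (c := 1) h2 (ae_of_all _ fun q => (norm_ee _ _).le)
  refine h3.congr (ae_of_all _ fun q => ?_)
  simp [Function.uncurry]

/-- Real form of `parseval`. -/
lemma parseval_real (μ : Measure E) [IsFiniteMeasure μ] (G H : E → ℝ) (hG : Integrable G)
    (hH : ∀ w, ∫ ξ, (G ξ : ℂ) * ee ξ w = (H w : ℂ)) :
    ∫ ξ, G ξ * ‖ft μ ξ‖ ^ 2 = ∫ p, H (p.1 - p.2) ∂(μ.prod μ) := by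
  have h := parseval μ G hG
  simp_rw [hH] at h
  have h1 : ∫ p, ((H (p.1 - p.2) : ℝ) : ℂ) ∂(μ.prod μ) =
      ((∫ p, H (p.1 - p.2) ∂(μ.prod μ) : ℝ) : ℂ) := integral_ofReal
  have h2 : ∫ ξ, (G ξ : ℂ) * ((‖ft μ ξ‖ ^ 2 : ℝ) : ℂ) = ((∫ ξ, G ξ * ‖ft μ ξ‖ ^ 2 : ℝ) : ℂ) := by
    rw [← integral_complex_ofReal]
    congr 1
    ext ξ
    push_cast
    ring
  rw [h2, h1] at h
  exact_mod_cast h

lemma norm_ft_le (μ : Measure E) [IsFiniteMeasure μ] (ξ : E) : ‖ft μ ξ‖ ≤ μ.real univ := by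
  unfold ft
  refine (norm_integral_le_integral_norm _).trans ?_
  simp [norm_ee]

/-- Fourier transform of the isotropic Gaussian. -/
lemma gauss_ee {t : ℝ} (ht : 0 < t) (w : E) :
    ∫ ξ, ((Real.exp (-(Real.pi / t) * ‖ξ‖ ^ 2) : ℝ) : ℂ) * ee ξ w =
      ((t ^ ((Module.finrank ℝ E : ℝ) / 2) * Real.exp (-(Real.pi * t) * ‖w‖ ^ 2) : ℝ) : ℂ) := by
  have hpi := Real.pi_pos
  have hb : 0 < ((Real.pi / t : ℝ) : ℂ).re := by
    rw [Complex.ofReal_re]; positivity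
  have h := GaussianFourier.integral_cexp_neg_mul_sq_norm_add (V := E) hb (2 * Real.pi * Complex.I) w
  have h1 : ∀ ξ : E, ((Real.exp (-(Real.pi / t) * ‖ξ‖ ^ 2) : ℝ) : ℂ) * ee ξ w =
      Complex.exp (-((Real.pi / t : ℝ) : ℂ) * ‖ξ‖ ^ 2 + 2 * Real.pi * Complex.I * (⟪w, ξ⟫ : ℝ)) := by
    intro ξ
    unfold ee
    rw [Complex.ofReal_exp, ← Complex.exp_add, real_inner_comm]
    push_cast
    ring_nf
  simp_rw [h1]
  rw [h]
  have h2 : (Real.pi : ℂ) / ((Real.pi / t : ℝ) : ℂ) = (t : ℂ) := by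
    push_cast
    field_simp
  rw [h2]
  push_cast
  rw [Complex.ofReal_cpow ht.le]
  congr 1
  · push_cast
    rfl
  · congr 1
    have h3 : (t : ℂ) ≠ 0 := by exact_mod_cast ht.ne'
    have h4 : (Real.pi : ℂ) ≠ 0 := by exact_mod_cast hpi.ne'
    field_simp
    rw [Complex.I_sq]
    ring

lemma integrable_gauss {c : ℝ} (hc : 0 < c) : Integrable fun ξ : E => Real.exp (-c * ‖ξ‖ ^ 2) := by
  have := GaussianFourier.integrable_cexp_neg_mul_sq_norm_add (V := E)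
    (b := (c : ℂ)) (by simpa using hc) 0 0
  have h2 := this.re
  refine h2.congr (ae_of_all _ fun ξ => ?_)
  have e : (-(c : ℂ) * ((‖ξ‖ : ℝ) : ℂ) ^ 2 + 0 * ((⟪(0:E), ξ⟫ : ℝ) : ℂ)) =
      ((-c * ‖ξ‖ ^ 2 : ℝ) : ℂ) := by push_cast; ring
  change RCLike.re (Complex.exp _) = _
  rw [e, ← Complex.ofReal_exp]
  rfl

/-- One dimensional Gaussian integral with a linear term. -/
lemma gauss_line {t : ℝ} (ht : 0 < t) (a p : ℝ) :
    ∫ s : ℝ, Real.exp (-(Real.pi) * s ^ 2) * Real.exp (-(Real.pi * t) * (a + 2 * s * p + s ^ 2)) =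
      Real.sqrt (1 / (1 + t)) * Real.exp (-(Real.pi * t) * (a - p ^ 2) -
        Real.pi * (t / (1 + t)) * p ^ 2) := by
  have h1 : ∀ s : ℝ, Real.exp (-(Real.pi) * s ^ 2) *
      Real.exp (-(Real.pi * t) * (a + 2 * s * p + s ^ 2)) =
      Real.exp (-(Real.pi * t) * (a - p ^ 2) - Real.pi * (t / (1 + t)) * p ^ 2) *
        Real.exp (-(Real.pi * (1 + t)) * (s + t * p / (1 + t)) ^ 2) := by
    intro s
    rw [← Real.exp_add, ← Real.exp_add]
    congr 1
    field_simp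
    ring
  simp_rw [h1]
  rw [integral_const_mul, integral_add_right_eq_self
    (fun s : ℝ => Real.exp (-(Real.pi * (1 + t)) * s ^ 2)), integral_gaussian]
  rw [mul_comm]
  congr 2
  have := Real.pi_pos
  field_simp

lemma gauss_one (p : ℝ) :
    ∫ s : ℝ, ((Real.exp (-Real.pi * s ^ 2) : ℝ) : ℂ) *
      Complex.exp (2 * Real.pi * Complex.I * ((s * p : ℝ) : ℂ)) =
      ((Real.exp (-Real.pi * p ^ 2) : ℝ) : ℂ) := by
  have h := gauss_ee (E := ℝ) (t := 1) one_pos p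
  simp only [div_one, mul_one, Real.one_rpow, one_mul] at h
  rw [show ‖p‖ ^ 2 = p ^ 2 by simp] at h
  rw [← h]
  congr 1
  ext s
  unfold ee
  rw [show ‖s‖ ^ 2 = s ^ 2 by simp]
  congr 4
  simp [mul_comm]

/-- Fourier transform of the anisotropic Gaussian. -/
lemma aniso_ee {t : ℝ} (ht : 0 < t) (x : E) (hx : ‖x‖ = 1) (w : E) :
    ∫ ξ, ((Real.exp (-(Real.pi / t) * ‖ξ‖ ^ 2) * Real.exp (-Real.pi * ⟪ξ, x⟫ ^ 2) : ℝ) : ℂ) * ee ξ w =
      ((t ^ ((Module.finrank ℝ E : ℝ) / 2) * (Real.sqrt (1 / (1 + t)) *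
        Real.exp (-(Real.pi * t) * (‖w‖ ^ 2 - ⟪w, x⟫ ^ 2) -
          Real.pi * (t / (1 + t)) * ⟪w, x⟫ ^ 2)) : ℝ) : ℂ) := by
  have hpi := Real.pi_pos
  have h1 : ∀ ξ : E, ((Real.exp (-(Real.pi / t) * ‖ξ‖ ^ 2) * Real.exp (-Real.pi * ⟪ξ, x⟫ ^ 2) : ℝ) : ℂ) *
      ee ξ w = ∫ s : ℝ, ((Real.exp (-(Real.pi / t) * ‖ξ‖ ^ 2) : ℝ) : ℂ) *
        ((Real.exp (-Real.pi * s ^ 2) : ℝ) : ℂ) * ee ξ (w + s • x) := by
    intro ξ
    rw [Complex.ofReal_mul, ← gauss_one, ← integral_const_mul, ← integral_mul_const]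
    congr 1
    ext s
    have : ee ξ (w + s • x) =
        Complex.exp (2 * Real.pi * Complex.I * ((s * ⟪ξ, x⟫ : ℝ) : ℂ)) * ee ξ w := by
      unfold ee
      rw [← Complex.exp_add]
      congr 1
      rw [inner_add_right, real_inner_smul_right]
      push_cast
      ring
    rw [this]
    ring
  simp_rw [h1]
  rw [integral_integral_swap]
  · have h2 : ∀ s : ℝ, ∫ ξ : E, ((Real.exp (-(Real.pi / t) * ‖ξ‖ ^ 2) : ℝ) : ℂ) *
        ((Real.exp (-Real.pi * s ^ 2) : ℝ) : ℂ) * ee ξ (w + s • x) =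
        ((t ^ ((Module.finrank ℝ E : ℝ) / 2) * (Real.exp (-Real.pi * s ^ 2) *
          Real.exp (-(Real.pi * t) * (‖w‖ ^ 2 + 2 * s * ⟪w, x⟫ + s ^ 2))) : ℝ) : ℂ) := by
      intro s
      have h3 : ∀ ξ : E, ((Real.exp (-(Real.pi / t) * ‖ξ‖ ^ 2) : ℝ) : ℂ) *
        ((Real.exp (-Real.pi * s ^ 2) : ℝ) : ℂ) * ee ξ (w + s • x) =
        ((Real.exp (-Real.pi * s ^ 2) : ℝ) : ℂ) * (((Real.exp (-(Real.pi / t) * ‖ξ‖ ^ 2) : ℝ) : ℂ) *
          ee ξ (w + s • x)) := fun ξ => by ring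
      simp_rw [h3]
      rw [integral_const_mul, gauss_ee ht, ← Complex.ofReal_mul]
      congr 1
      have h4 : ‖w + s • x‖ ^ 2 = ‖w‖ ^ 2 + 2 * s * ⟪w, x⟫ + s ^ 2 := by
        rw [norm_add_sq_real, real_inner_smul_right, norm_smul, hx]
        simp
        ring
      rw [h4]
      ring
    simp_rw [h2]
    rw [integral_complex_ofReal, integral_const_mul, gauss_line ht]
  · have i1 : Integrable (fun q : E × ℝ => ((Real.exp (-(Real.pi / t) * ‖q.1‖ ^ 2) : ℝ) : ℂ) *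
        ((Real.exp (-Real.pi * q.2 ^ 2) : ℝ) : ℂ)) (volume.prod volume) :=
      Integrable.mul_prod (f := fun ξ : E => ((Real.exp (-(Real.pi / t) * ‖ξ‖ ^ 2) : ℝ) : ℂ))
        (g := fun s : ℝ => ((Real.exp (-Real.pi * s ^ 2) : ℝ) : ℂ))
        (integrable_gauss (by positivity)).ofReal (integrable_exp_neg_mul_sq hpi).ofReal
    have i2 : AEStronglyMeasurable (fun q : E × ℝ => ee q.1 (w + q.2 • x))
        ((volume : Measure E).prod (volume : Measure ℝ)) := by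
      refine Continuous.aestronglyMeasurable ?_
      exact continuous_ee.comp (continuous_fst.prodMk
        (continuous_const.add (continuous_snd.smul continuous_const)))
    exact i1.mul_bdd (c := 1) i2 (ae_of_all _ fun q => (norm_ee _ _).le)

lemma integrable_aniso {t : ℝ} (ht : 0 < t) (x : E) :
    Integrable fun ξ : E => Real.exp (-(Real.pi / t) * ‖ξ‖ ^ 2) * Real.exp (-Real.pi * ⟪ξ, x⟫ ^ 2) := by
  have hpi := Real.pi_pos
  refine (integrable_gauss (E := E) (c := Real.pi / t) (by positivity)).mul_bdd (c := 1) ?_ ?_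
  · exact Continuous.aestronglyMeasurable (by fun_prop)
  · refine ae_of_all _ fun ξ => ?_
    rw [Real.norm_eq_abs, Real.abs_exp, Real.exp_le_one_iff]
    nlinarith [sq_nonneg (⟪ξ, x⟫ : ℝ)]

end Pool.Agent.Helper28.TP
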