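import Pool.Agent.Helper28.TP.Energy
import Pool.Agent.Helper28.TP.Frostman

/-! Gaussian energies of Frostman measures, and the mass distribution principle. -/

set_option linter.unusedSectionVars false

open MeasureTheory Measure Set Metric Filter Topology
open scoped ENNReal NNReal RealInnerProductSpace

namespace Pool.Agent.Helper28.TP

variable {E : Type*} [NormedAddCommGroup E] [InnerProductSpace ℝ E] [FiniteDimensional ℝ E]
  [MeasurableSpace E] [BorelSpace E]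

lemma summable_shift (s : ℝ) : Summable (fun j : ℕ => Real.exp (-(j : ℝ)) * ((j : ℝ) + 1) ^ s) := by
  have h1 : Summable (fun j : ℕ => (j : ℝ) ^ ⌈s⌉₊ * Real.exp (-(j : ℝ))) := by
    have := Real.summable_pow_mul_exp_neg_nat_mul ⌈s⌉₊ (r := 1) one_pos
    simpa using this
  have h2 := ((summable_nat_add_iff 1).2 h1).mul_left (Real.exp 1)
  refine Summable.of_nonneg_of_le (fun j => by positivity) (fun j => ?_) h2
  have h3 : ((j : ℝ) + 1) ^ s ≤ ((j : ℝ) + 1) ^ (⌈s⌉₊ : ℝ) :=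
    Real.rpow_le_rpow_of_exponent_le (by linarith [(Nat.cast_nonneg j : (0 : ℝ) ≤ j)]) (Nat.le_ceil s)
  rw [Real.rpow_natCast] at h3
  calc Real.exp (-(j : ℝ)) * ((j : ℝ) + 1) ^ s ≤ Real.exp (-(j : ℝ)) * ((j : ℝ) + 1) ^ ⌈s⌉₊ := by gcongr
    _ = Real.exp 1 * (((j + 1 : ℕ) : ℝ) ^ ⌈s⌉₊ * Real.exp (-((j + 1 : ℕ) : ℝ))) := by
      push_cast
      rw [mul_comm (((j : ℝ) + 1) ^ ⌈s⌉₊), ← mul_assoc, ← Real.exp_add]
      congr 2
      ring

lemma Il_eq (μ : Measure E) [SFinite μ] (t : ℝ) :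
    Il μ t = ∫⁻ x, ∫⁻ y, ENNReal.ofReal (Real.exp (-(Real.pi * t) * ‖x - y‖ ^ 2)) ∂μ ∂μ := by
  unfold Il
  rw [lintegral_prod]
  exact Measurable.aemeasurable (by fun_prop)

lemma Il_bound (μ : Measure E) [IsProbabilityMeasure μ] {s C : ℝ} (hC : 0 ≤ C)
    (h : ∀ x, ∀ r : ℝ, 0 < r → μ (ball x r) ≤ ENNReal.ofReal (C * r ^ s)) :
    ∃ C₂ : ℝ, 0 ≤ C₂ ∧ ∀ k : ℕ, Il μ (4 ^ k) ≤ ENNReal.ofReal (C₂ * (2 : ℝ) ^ (-(k : ℝ) * s)) := by
  set K : ℝ := ∑' j : ℕ, Real.exp (-(j : ℝ)) * ((j : ℝ) + 1) ^ s with hK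
  have hK0 : 0 ≤ K := tsum_nonneg fun j => by positivity
  refine ⟨C * K, by positivity, fun k => ?_⟩
  rw [Il_eq]
  have hx : ∀ x : E, ∫⁻ y, ENNReal.ofReal (Real.exp (-(Real.pi * 4 ^ k) * ‖x - y‖ ^ 2)) ∂μ ≤
      ENNReal.ofReal (C * K * (2 : ℝ) ^ (-(k : ℝ) * s)) := by
    intro x
    have hpt : ∀ y, ENNReal.ofReal (Real.exp (-(Real.pi * 4 ^ k) * ‖x - y‖ ^ 2)) ≤
        ∑' j : ℕ, (ball x (((j : ℝ) + 1) / 2 ^ k)).indicator
          (fun _ => ENNReal.ofReal (Real.exp (-(j : ℝ)))) y := by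
      intro y
      set p := 2 ^ k * ‖x - y‖ with hpdef
      have hp0 : 0 ≤ p := by positivity
      set j : ℕ := ⌊p⌋₊ with hj
      have hj1 : (j : ℝ) ≤ p := Nat.floor_le hp0
      have hj2 : p < (j : ℝ) + 1 := Nat.lt_floor_add_one p
      have hmem : y ∈ ball x (((j : ℝ) + 1) / 2 ^ k) := by
        rw [mem_ball, dist_comm, dist_eq_norm, lt_div_iff₀ (by positivity), mul_comm]
        exact hj2
      refine le_trans ?_ (ENNReal.le_tsum j)
      rw [indicator_of_mem hmem]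
      refine ENNReal.ofReal_le_ofReal (Real.exp_le_exp.2 ?_)
      have h1 : (j : ℝ) ≤ (j : ℝ) ^ 2 := by
        have : (j : ℝ) ^ 2 = ((j ^ 2 : ℕ) : ℝ) := by push_cast; ring
        rw [this]
        exact_mod_cast Nat.le_self_pow (by norm_num) j
      have h2 : (j : ℝ) ^ 2 ≤ p ^ 2 := pow_le_pow_left₀ (Nat.cast_nonneg j) hj1 2
      have h3 : 1 ≤ Real.pi := by linarith [Real.pi_gt_three]
      have h4 : (4 : ℝ) ^ k * ‖x - y‖ ^ 2 = p ^ 2 := by
        rw [hpdef, mul_pow, ← pow_mul, mul_comm k 2, pow_mul]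
        norm_num
      have h5 : -(Real.pi * 4 ^ k) * ‖x - y‖ ^ 2 = -(Real.pi * p ^ 2) := by
        rw [← h4]; ring
      rw [h5]
      have h6 : 0 ≤ p ^ 2 := sq_nonneg _
      nlinarith
    calc ∫⁻ y, ENNReal.ofReal (Real.exp (-(Real.pi * 4 ^ k) * ‖x - y‖ ^ 2)) ∂μ
        ≤ ∫⁻ y, ∑' j : ℕ, (ball x (((j : ℝ) + 1) / 2 ^ k)).indicator
          (fun _ => ENNReal.ofReal (Real.exp (-(j : ℝ)))) y ∂μ := lintegral_mono hpt
      _ = ∑' j : ℕ, ∫⁻ y, (ball x (((j : ℝ) + 1) / 2 ^ k)).indicator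
          (fun _ => ENNReal.ofReal (Real.exp (-(j : ℝ)))) y ∂μ := by
          rw [lintegral_tsum]
          intro j
          exact (measurable_const.indicator measurableSet_ball).aemeasurable
      _ = ∑' j : ℕ, ENNReal.ofReal (Real.exp (-(j : ℝ))) * μ (ball x (((j : ℝ) + 1) / 2 ^ k)) := by
          congr 1
          ext j
          rw [lintegral_indicator_const measurableSet_ball]
      _ ≤ ∑' j : ℕ, ENNReal.ofReal (C * (2 : ℝ) ^ (-(k : ℝ) * s) *
            (Real.exp (-(j : ℝ)) * ((j : ℝ) + 1) ^ s)) := by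
          refine ENNReal.tsum_le_tsum fun j => ?_
          refine (mul_le_mul_right (h x _ (by positivity)) _).trans ?_
          rw [← ENNReal.ofReal_mul (Real.exp_pos _).le]
          refine ENNReal.ofReal_le_ofReal (le_of_eq ?_)
          rw [Real.div_rpow (by positivity) (by positivity), ← Real.rpow_natCast 2 k,
            ← Real.rpow_mul (by norm_num), neg_mul, Real.rpow_neg (by norm_num)]
          field_simp
      _ = ENNReal.ofReal (C * (2 : ℝ) ^ (-(k : ℝ) * s) * K) := by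
          rw [← ENNReal.ofReal_tsum_of_nonneg (fun j => by positivity)
            ((summable_shift s).mul_left _), tsum_mul_left]
      _ = _ := by
          congr 1
          ring
  calc ∫⁻ x, ∫⁻ y, ENNReal.ofReal (Real.exp (-(Real.pi * 4 ^ k) * ‖x - y‖ ^ 2)) ∂μ ∂μ
      ≤ ∫⁻ _, ENNReal.ofReal (C * K * (2 : ℝ) ^ (-(k : ℝ) * s)) ∂μ := lintegral_mono hx
    _ = _ := by rw [lintegral_const, measure_univ, mul_one]

/-- mass distribution -/
lemma massdist (μ : Measure E) [IsProbabilityMeasure μ] {σ : ℝ} (hσ : 0 < σ)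
    (h : ∑' m : ℕ, ENNReal.ofReal ((2 : ℝ) ^ ((m : ℝ) * σ)) * Il μ (4 ^ m) ≠ ⊤)
    (S : Set E) (hS : μ Sᶜ = 0) : ENNReal.ofReal σ ≤ dimH S := by
  set g : ℕ → E → ℝ≥0∞ := fun m x =>
    ENNReal.ofReal ((2 : ℝ) ^ ((m : ℝ) * σ)) *
      ∫⁻ y, ENNReal.ofReal (Real.exp (-(Real.pi * 4 ^ m) * ‖x - y‖ ^ 2)) ∂μ with hg
  have hgm : ∀ m, Measurable (g m) := by
    intro m
    refine Measurable.const_mul ?_ _
    refine Measurable.lintegral_prod_right' (f := fun p : E × E =>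
      ENNReal.ofReal (Real.exp (-(Real.pi * 4 ^ m) * ‖p.1 - p.2‖ ^ 2))) ?_
    fun_prop
  set G : E → ℝ≥0∞ := fun x => ∑' m, g m x with hG
  have hGm : Measurable G := Measurable.tsum hgm
  have hint : ∫⁻ x, G x ∂μ ≠ ⊤ := by
    rw [hG, lintegral_tsum (fun m => (hgm m).aemeasurable)]
    convert h using 3 with m
    rw [Il_eq, hg]
    simp only
    rw [lintegral_const_mul]
    refine Measurable.lintegral_prod_right' (f := fun p : E × E =>
      ENNReal.ofReal (Real.exp (-(Real.pi * 4 ^ m) * ‖p.1 - p.2‖ ^ 2))) ?_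
    fun_prop
  have hae : ∀ᵐ x ∂μ, G x < ⊤ := ae_lt_top hGm hint
  obtain ⟨L, hL⟩ : ∃ L : ℕ, μ {x | G x ≤ L} ≠ 0 := by
    by_contra hcon
    push Not at hcon
    have h1 : μ (⋃ L : ℕ, {x | G x ≤ L}) = 0 := measure_iUnion_null hcon
    have h2 : {x | G x < ⊤} ⊆ ⋃ L : ℕ, {x | G x ≤ L} := by
      intro x hx
      obtain ⟨L, hL⟩ := ENNReal.exists_nat_gt (ne_of_lt (show G x < ⊤ from hx))
      exact mem_iUnion.2 ⟨L, hL.le⟩
    have h3 : μ {x | G x < ⊤} = 0 := measure_mono_null h2 h1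
    have h4 : μ {x | G x < ⊤}ᶜ = 0 := hae
    have h5 : μ univ ≤ μ {x | G x < ⊤} + μ {x | G x < ⊤}ᶜ := by
      rw [← union_compl_self {x | G x < ⊤}]
      exact measure_union_le _ _
    rw [h3, h4, measure_univ] at h5
    simp at h5
  set A : Set E := {x | G x ≤ L} with hA
  have hAm : MeasurableSet A := measurableSet_le hGm measurable_const
  -- ball bounds
  have hball1 : ∀ x ∈ A, ∀ m : ℕ, μ (closedBall x ((2 : ℝ) ^ m)⁻¹) ≤
      ENNReal.ofReal (L * Real.exp Real.pi * (2 : ℝ) ^ (-((m : ℝ) * σ))) := by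
    intro x hx m
    have h1 : g m x ≤ L := (ENNReal.le_tsum m).trans hx
    have h2 : ENNReal.ofReal (Real.exp (-Real.pi)) * μ (closedBall x ((2 : ℝ) ^ m)⁻¹) ≤
        ∫⁻ y, ENNReal.ofReal (Real.exp (-(Real.pi * 4 ^ m) * ‖x - y‖ ^ 2)) ∂μ := by
      rw [← setLIntegral_const]
      refine le_trans ?_ (setLIntegral_le_lintegral (closedBall x ((2 : ℝ) ^ m)⁻¹) _)
      refine setLIntegral_mono' measurableSet_closedBall fun y hy => ?_
      refine ENNReal.ofReal_le_ofReal (Real.exp_le_exp.2 ?_)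
      have h3 : ‖x - y‖ ≤ ((2 : ℝ) ^ m)⁻¹ := by
        rw [← dist_eq_norm, dist_comm]
        exact hy
      have h4 : (4 : ℝ) ^ m * ‖x - y‖ ^ 2 ≤ 1 := by
        calc (4 : ℝ) ^ m * ‖x - y‖ ^ 2 ≤ 4 ^ m * (((2 : ℝ) ^ m)⁻¹) ^ 2 := by gcongr
          _ = 1 := by
            rw [← inv_pow, ← pow_mul, mul_comm m 2, pow_mul, ← mul_pow]
            norm_num
      have h5 : 0 ≤ Real.pi := Real.pi_pos.le
      nlinarith
    have h3 : ENNReal.ofReal ((2 : ℝ) ^ ((m : ℝ) * σ)) *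
        (ENNReal.ofReal (Real.exp (-Real.pi)) * μ (closedBall x ((2 : ℝ) ^ m)⁻¹)) ≤ L :=
      (mul_le_mul_right h2 _).trans h1
    have h4 : μ (closedBall x ((2 : ℝ) ^ m)⁻¹) =
        ENNReal.ofReal ((2 : ℝ) ^ (-((m : ℝ) * σ)) * Real.exp Real.pi) *
        (ENNReal.ofReal ((2 : ℝ) ^ ((m : ℝ) * σ)) *
        (ENNReal.ofReal (Real.exp (-Real.pi)) * μ (closedBall x ((2 : ℝ) ^ m)⁻¹))) := by
      rw [← mul_assoc (ENNReal.ofReal ((2 : ℝ) ^ ((m : ℝ) * σ))), ← mul_assoc,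
        ← ENNReal.ofReal_mul (by positivity), ← ENNReal.ofReal_mul (by positivity)]
      have : (2 : ℝ) ^ (-((m : ℝ) * σ)) * Real.exp Real.pi *
          ((2 : ℝ) ^ ((m : ℝ) * σ) * Real.exp (-Real.pi)) = 1 := by
        rw [Real.rpow_neg (by norm_num), Real.exp_neg]
        have h6 : (2 : ℝ) ^ ((m : ℝ) * σ) ≠ 0 := by positivity
        have h7 : Real.exp Real.pi ≠ 0 := (Real.exp_pos _).ne'
        field_simp
      rw [this, ENNReal.ofReal_one, one_mul]
    rw [h4]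
    refine (mul_le_mul_right h3 _).trans ?_
    rw [← ENNReal.ofReal_natCast L, ← ENNReal.ofReal_mul (by positivity)]
    refine ENNReal.ofReal_le_ofReal (le_of_eq ?_)
    ring
  set c : ℝ := (L * Real.exp Real.pi + 1) * (2 : ℝ) ^ σ with hc
  have hc0 : 0 < c := by positivity
  have hball2 : ∀ x ∈ A, ∀ r : ℝ, 0 < r → r ≤ 1 → μ (closedBall x r) ≤ ENNReal.ofReal (c * r ^ σ) := by
    intro x hx r hr hr1
    obtain ⟨m, hm1, hm2⟩ : ∃ m : ℕ, r ≤ ((2 : ℝ) ^ m)⁻¹ ∧ ((2 : ℝ) ^ (m + 1))⁻¹ < r := by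
      obtain ⟨k, hk1, hk2⟩ := exists_nat_pow_near_of_lt_one hr hr1 (y := (2 : ℝ)⁻¹) (by norm_num) (by norm_num)
      exact ⟨k, by rw [← inv_pow]; exact hk2, by rw [← inv_pow]; exact hk1⟩
    refine (measure_mono (closedBall_subset_closedBall hm1)).trans ((hball1 x hx m).trans ?_)
    refine ENNReal.ofReal_le_ofReal ?_
    have h2 : (2 : ℝ) ^ (-((m : ℝ) * σ)) ≤ 2 ^ σ * r ^ σ := by
      have h3 : (2 : ℝ) ^ (-((m : ℝ) * σ)) = (((2 : ℝ) ^ m)⁻¹) ^ σ := wt_eq σ m
      rw [h3, ← Real.mul_rpow (by norm_num) hr.le]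
      refine Real.rpow_le_rpow (by positivity) ?_ hσ.le
      rw [pow_succ, mul_inv] at hm2
      linarith
    have h4 : 0 ≤ (2 : ℝ) ^ σ * r ^ σ := by positivity
    calc L * Real.exp Real.pi * (2 : ℝ) ^ (-((m : ℝ) * σ)) ≤
        L * Real.exp Real.pi * (2 ^ σ * r ^ σ) := by gcongr
      _ ≤ (L * Real.exp Real.pi + 1) * (2 ^ σ * r ^ σ) := by linarith
      _ = _ := by rw [hc]; ring
  -- compare with the Hausdorff measure
  have hle : (ENNReal.ofReal c)⁻¹ • μ.restrict A ≤ μH[σ] := by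
    refine le_hausdorffMeasure σ _ 1 one_pos fun T hT => ?_
    rw [Measure.smul_apply, smul_eq_mul, Measure.restrict_apply' hAm]
    rcases eq_empty_or_nonempty (T ∩ A) with he | ⟨x, hxT, hxA⟩
    · rw [he]; simp
    · have hTfin : ediam T ≠ ⊤ := (hT.trans_lt (by simp)).ne
      have hsub : ∀ r : ℝ, Metric.diam T ≤ r → T ∩ A ⊆ closedBall x r := by
        intro r hr y hy
        rw [mem_closedBall]
        exact (dist_le_diam_of_mem' hTfin hy.1 hxT).trans hr
      have hdT : ediam T = ENNReal.ofReal (Metric.diam T) := (ENNReal.ofReal_toReal hTfin).symm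
      have hd1 : Metric.diam T ≤ 1 := by
        rw [Metric.diam]
        refine ENNReal.toReal_le_of_le_ofReal zero_le_one ?_
        rw [ENNReal.ofReal_one]
        exact hT
      rcases (Metric.diam_nonneg (s := T)).eq_or_lt with h0 | h0
      · -- diameter zero
        have hz : μ (T ∩ A) = 0 := by
          refine le_antisymm (ge_of_tendsto (f := fun k : ℕ =>
            ENNReal.ofReal (c * ((2 : ℝ)⁻¹ ^ k) ^ σ)) (x := atTop) ?_ ?_) zero_le
          · rw [← ENNReal.ofReal_zero]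
            refine ENNReal.tendsto_ofReal ?_
            have h1 : Tendsto (fun k : ℕ => (2 : ℝ)⁻¹ ^ k) atTop (𝓝 0) :=
              tendsto_pow_atTop_nhds_zero_of_lt_one (by norm_num) (by norm_num)
            have h2 := (h1.rpow_const (p := σ) (Or.inr hσ.le)).const_mul c
            rwa [Real.zero_rpow hσ.ne', mul_zero] at h2
          · refine Eventually.of_forall fun k => ?_
            have h1 : (0 : ℝ) < (2 : ℝ)⁻¹ ^ k := by positivity
            exact (measure_mono (hsub _ (by rw [← h0]; exact h1.le))).trans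
              (hball2 x hxA _ h1 (pow_le_one₀ (by norm_num) (by norm_num)))
        rw [hz, mul_zero]
        exact zero_le
      · have h1 := (measure_mono (hsub _ le_rfl)).trans (hball2 x hxA _ h0 hd1)
        rw [hdT, ENNReal.ofReal_rpow_of_pos h0]
        calc (ENNReal.ofReal c)⁻¹ * μ (T ∩ A) ≤
            (ENNReal.ofReal c)⁻¹ * ENNReal.ofReal (c * Metric.diam T ^ σ) := by gcongr
          _ = ENNReal.ofReal (Metric.diam T ^ σ) := by
            rw [ENNReal.ofReal_mul hc0.le, ← mul_assoc,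
              ENNReal.inv_mul_cancel (ENNReal.ofReal_pos.2 hc0).ne' ENNReal.ofReal_ne_top, one_mul]
  have hpos : μH[σ] S ≠ 0 := by
    intro h0
    have h1 := hle S
    rw [h0, Measure.smul_apply, smul_eq_mul, Measure.restrict_apply' hAm] at h1
    have h2 : μ (S ∩ A) ≠ 0 := by
      intro h3
      apply hL
      refine le_antisymm ?_ zero_le
      calc μ A ≤ μ (S ∩ A ∪ Sᶜ) := measure_mono fun y hy => by
            by_cases hyS : y ∈ S
            · exact Or.inl ⟨hyS, hy⟩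
            · exact Or.inr hyS
        _ ≤ μ (S ∩ A) + μ Sᶜ := measure_union_le _ _
        _ = 0 := by rw [h3, hS, add_zero]
    have h3 : (ENNReal.ofReal c)⁻¹ ≠ 0 := ENNReal.inv_ne_zero.2 ENNReal.ofReal_ne_top
    exact absurd (le_antisymm h1 zero_le) (mul_ne_zero h3 h2)
  have hfin := le_dimH_of_hausdorffMeasure_ne_zero (d := Real.toNNReal σ) (s := S) (by
    rwa [Real.coe_toNNReal σ hσ.le])
  exact hfin

end Pool.Agent.Helper28.TP
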