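import Pool.Agent.Helper28.TP.MassDist

/-! Lower bound for the dimension of almost every projection, from the decay of Gaussian averages. -/

set_option linter.unusedSectionVars false

open MeasureTheory Measure Set Metric Filter Topology
open scoped ENNReal NNReal RealInnerProductSpace

namespace Pool.Agent.Helper28.TP

/-- the orthogonal projection to the orthogonal complement of the line spanned by `x` -/
noncomputable abbrev oproj {n : ℕ} (x : Eu n) : Eu n →L[ℝ] (ℝ ∙ x)ᗮ := (ℝ ∙ x)ᗮ.orthogonalProjectionOnto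

lemma oproj_norm_sq {n : ℕ} {x : Eu n} (hx : ‖x‖ = 1) (z : Eu n) :
    ‖oproj x z‖ ^ 2 = ‖z‖ ^ 2 - ⟪z, x⟫ ^ 2 := by
  have h1 := Submodule.norm_sq_eq_add_norm_sq_projection z (ℝ ∙ x)
  have h2 : ‖(ℝ ∙ x).orthogonalProjectionOnto z‖ = |⟪z, x⟫| := by
    have h3 := Submodule.starProjection_unit_singleton ℝ hx z
    have h4 : ‖(ℝ ∙ x).orthogonalProjectionOnto z‖ = ‖(ℝ ∙ x).starProjection z‖ := rfl
    rw [h4, h3, norm_smul, hx, mul_one, Real.norm_eq_abs, real_inner_comm]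
  rw [h2, sq_abs] at h1
  linarith

lemma oproj_norm_le {n : ℕ} (x : Eu n) (z : Eu n) : ‖oproj x z‖ ≤ ‖z‖ :=
  Submodule.norm_orthogonalProjectionOnto_apply_le _ _

lemma Il_map {n : ℕ} (μ : Measure (Eu n)) [SFinite μ] {x : Eu n} (hx : ‖x‖ = 1) (t : ℝ) :
    Il (μ.map (oproj x)) t = Jl μ x t := by
  unfold Il Jl
  have hm : Measurable (oproj x) := (oproj x).continuous.measurable
  rw [Measure.map_prod_map _ _ hm hm, lintegral_map (by fun_prop) (hm.prodMap hm)]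
  refine lintegral_congr fun p => ?_
  simp only [Prod.map_fst, Prod.map_snd]
  rw [← map_sub, oproj_norm_sq hx]

lemma dimH_oproj_le {n : ℕ} (x : Eu n) (Z : Set (Eu n)) : dimH (oproj x '' Z) ≤ dimH Z := by
  have h1 : LipschitzWith 1 (oproj x) := by
    refine LipschitzWith.of_dist_le_mul fun a b => ?_
    rw [dist_eq_norm, dist_eq_norm, ← map_sub, NNReal.coe_one, one_mul]
    exact oproj_norm_le x _
  exact h1.dimH_image_le Z

lemma dimH_oproj_le' {n : ℕ} {x : Eu n} (hx : ‖x‖ = 1) (Z : Set (Eu n)) :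
    dimH (oproj x '' Z) ≤ ((n - 1 : ℕ) : ℝ≥0∞) := by
  have h1 : Module.finrank ℝ (ℝ ∙ x)ᗮ = n - 1 := by
    have hx0 : x ≠ 0 := by
      intro h
      rw [h, norm_zero] at hx
      norm_num at hx
    have h2 := Submodule.finrank_add_finrank_orthogonal (ℝ ∙ x)
    rw [finrank_span_singleton hx0, finrank_euclideanSpace, Fintype.card_fin] at h2
    omega
  calc dimH (oproj x '' Z) ≤ dimH (univ : Set (ℝ ∙ x)ᗮ) := dimH_mono (subset_univ _)
    _ = Module.finrank ℝ (ℝ ∙ x)ᗮ := Real.dimH_univ_eq_finrank _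
    _ = _ := by rw [h1]

lemma lower_one {n : ℕ} {α : Type*} [MeasurableSpace α] (ν : Measure α) [SFinite ν] (ψ : α → Eu n)
    (hψ : Measurable ψ) (hψ1 : ∀ᵐ u ∂ν, ‖ψ u‖ = 1) (C₁ : ℝ) (hC₁ : 0 ≤ C₁)
    (hν : ∀ ξ : Eu n, ∫⁻ u, ENNReal.ofReal (Real.exp (-Real.pi * ⟪ξ, ψ u⟫ ^ 2)) ∂ν ≤
      ENNReal.ofReal (C₁ / (1 + ‖ξ‖)))
    (Z : Set (Eu n)) (hZ : AnalyticSet Z) (σ s : ℝ) (hσ : 0 < σ) (hσs : σ < s)
    (hs1 : ENNReal.ofReal s < dimH Z) (hs2 : s < (n : ℝ) - 1) :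
    ∀ᵐ u ∂ν, ENNReal.ofReal σ ≤ dimH (oproj (ψ u) '' Z) := by
  have hs : 0 < s := hσ.trans hσs
  obtain ⟨K, hKZ, hK, μ, hμ1, hμK, C, hC, hball⟩ := frostman hs Z hZ hs1
  obtain ⟨C₂, hC₂, hI⟩ := Il_bound μ hC hball
  obtain ⟨R, hR⟩ := hK.isBounded.exists_norm_le
  have hD : ∀ᵐ p ∂(μ.prod μ), ‖p.1 - p.2‖ ≤ 2 * R := by
    have h1 : ∀ᵐ x ∂μ, x ∈ K := by
      rw [ae_iff]
      exact hμK
    have h2 : ∀ᵐ p ∂(μ.prod μ), p.1 ∈ K ∧ p.2 ∈ K := by
      have h3 : ∀ᵐ p ∂(μ.prod μ), p.1 ∈ K := (Measure.quasiMeasurePreserving_fst).ae h1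
      have h4 : ∀ᵐ p ∂(μ.prod μ), p.2 ∈ K := (Measure.quasiMeasurePreserving_snd).ae h1
      exact h3.and h4
    filter_upwards [h2] with p hp
    calc ‖p.1 - p.2‖ ≤ ‖p.1‖ + ‖p.2‖ := norm_sub_le _ _
      _ ≤ 2 * R := by linarith [hR _ hp.1, hR _ hp.2]
  obtain ⟨C₃, hC₃, hJ⟩ := averaged μ (2 * R) hD ν ψ hψ hψ1 C₁ hC₁ hν s C₂
    (by rwa [finrank_euclideanSpace, Fintype.card_fin]) hC₂ hI
  -- measurability in `u`
  have hJm : ∀ m : ℕ, Measurable fun u => Jl μ (ψ u) (4 ^ m) := by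
    intro m
    unfold Jl
    refine Measurable.lintegral_prod_right' (f := fun q : α × (Eu n × Eu n) =>
      ENNReal.ofReal (Real.exp (-(Real.pi * 4 ^ m) *
        (‖q.2.1 - q.2.2‖ ^ 2 - ⟪q.2.1 - q.2.2, ψ q.1⟫ ^ 2)))) ?_
    have h1 : Measurable fun q : α × (Eu n × Eu n) => ψ q.1 := hψ.comp measurable_fst
    have h2 : Measurable fun q : α × (Eu n × Eu n) => q.2.1 - q.2.2 := by fun_prop
    have h3 : Measurable fun q : α × (Eu n × Eu n) => ⟪q.2.1 - q.2.2, ψ q.1⟫ := h2.inner h1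
    fun_prop
  have hsum : ∫⁻ u, ∑' m : ℕ, ENNReal.ofReal ((2 : ℝ) ^ ((m : ℝ) * σ)) * Jl μ (ψ u) (4 ^ m) ∂ν ≠ ⊤ := by
    rw [lintegral_tsum (fun m => ((hJm m).const_mul _).aemeasurable)]
    have h1 : ∀ m : ℕ, ∫⁻ u, ENNReal.ofReal ((2 : ℝ) ^ ((m : ℝ) * σ)) * Jl μ (ψ u) (4 ^ m) ∂ν ≤
        ENNReal.ofReal (C₃ * ((2 : ℝ) ^ (σ - s)) ^ m) := by
      intro m
      rw [lintegral_const_mul _ (hJm m)]
      refine (mul_le_mul_right (hJ m) _).trans ?_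
      rw [← ENNReal.ofReal_mul (by positivity)]
      refine ENNReal.ofReal_le_ofReal (le_of_eq ?_)
      rw [← Real.rpow_mul_natCast (by norm_num), mul_left_comm, ← Real.rpow_add (by norm_num)]
      congr 2
      ring
    have hlt : (2 : ℝ) ^ (σ - s) < 1 := Real.rpow_lt_one_of_one_lt_of_neg (by norm_num) (by linarith)
    have hsm : Summable fun m : ℕ => C₃ * ((2 : ℝ) ^ (σ - s)) ^ m :=
      (summable_geometric_of_lt_one (by positivity) hlt).mul_left _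
    refine ne_top_of_le_ne_top ?_ (ENNReal.tsum_le_tsum h1)
    rw [← ENNReal.ofReal_tsum_of_nonneg (fun m => by positivity) hsm]
    exact ENNReal.ofReal_ne_top
  have hmeas : Measurable fun u => ∑' m : ℕ, ENNReal.ofReal ((2 : ℝ) ^ ((m : ℝ) * σ)) *
      Jl μ (ψ u) (4 ^ m) := Measurable.tsum fun m => (hJm m).const_mul _
  filter_upwards [ae_lt_top hmeas hsum, hψ1] with u hu hu1
  have hm : Measurable (oproj (ψ u)) := (oproj (ψ u)).continuous.measurable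
  have : IsProbabilityMeasure (μ.map (oproj (ψ u))) := Measure.isProbabilityMeasure_map hm.aemeasurable
  have hKi : IsCompact (oproj (ψ u) '' K) := hK.image (oproj (ψ u)).continuous
  have h1 := massdist (μ.map (oproj (ψ u))) hσ (by
    simp only [Il_map μ hu1]
    exact hu.ne) (oproj (ψ u) '' K) (by
    rw [Measure.map_apply hm hKi.measurableSet.compl]
    refine measure_mono_null (fun z hz hzK => hz ⟨z, hzK, rfl⟩) hμK)
  exact h1.trans (dimH_mono (image_mono hKZ))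

theorem lower_ae {n : ℕ} {α : Type*} [MeasurableSpace α] (ν : Measure α) [SFinite ν] (ψ : α → Eu n)
    (hψ : Measurable ψ) (hψ1 : ∀ᵐ u ∂ν, ‖ψ u‖ = 1) (C₁ : ℝ) (hC₁ : 0 ≤ C₁)
    (hν : ∀ ξ : Eu n, ∫⁻ u, ENNReal.ofReal (Real.exp (-Real.pi * ⟪ξ, ψ u⟫ ^ 2)) ∂ν ≤
      ENNReal.ofReal (C₁ / (1 + ‖ξ‖)))
    (Z : Set (Eu n)) (hZ : AnalyticSet Z) :
    ∀ᵐ u ∂ν, dimH (oproj (ψ u) '' Z) = min (dimH Z) ((n - 1 : ℕ) : ℝ≥0∞) := by
  have hq : ∀ᵐ u ∂ν, ∀ q : ℚ, 0 < (q : ℝ) → ENNReal.ofReal q < min (dimH Z) ((n - 1 : ℕ) : ℝ≥0∞) →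
      ENNReal.ofReal q ≤ dimH (oproj (ψ u) '' Z) := by
    rw [ae_all_iff]
    intro q
    by_cases h : 0 < (q : ℝ) ∧ ENNReal.ofReal q < min (dimH Z) ((n - 1 : ℕ) : ℝ≥0∞)
    · obtain ⟨h0, h1⟩ := h
      obtain ⟨s, hs1, hs2⟩ := ENNReal.lt_iff_exists_nnreal_btwn.1 h1
      have hqs : (q : ℝ) < s := by
        rw [← ENNReal.ofReal_coe_nnreal] at hs1
        exact (ENNReal.ofReal_lt_ofReal_iff_of_nonneg h0.le).1 hs1
      have hsn : (s : ℝ) < (n : ℝ) - 1 := by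
        have h2 : (s : ℝ≥0∞) < ((n - 1 : ℕ) : ℝ≥0∞) := hs2.trans_le (min_le_right _ _)
        have h3 : s < ((n - 1 : ℕ) : ℝ≥0) := by exact_mod_cast h2
        have h4 : (s : ℝ) < ((n - 1 : ℕ) : ℝ) := by exact_mod_cast h3
        rcases Nat.eq_zero_or_pos n with rfl | hn
        · simp at h4
        · rwa [Nat.cast_sub hn, Nat.cast_one] at h4
      filter_upwards [lower_one ν ψ hψ hψ1 C₁ hC₁ hν Z hZ q s h0 hqs
        (by rw [ENNReal.ofReal_coe_nnreal]; exact hs2.trans_le (min_le_left _ _)) hsn] with u hu _ _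
      exact hu
    · refine Eventually.of_forall fun u h0 h1 => absurd ⟨h0, h1⟩ h
  filter_upwards [hq, hψ1] with u hu hu1
  refine le_antisymm (le_min (dimH_oproj_le _ _) (dimH_oproj_le' hu1 _)) ?_
  refine le_of_forall_lt fun c hc => ?_
  obtain ⟨q, hq0, hq1, hq2⟩ := ENNReal.lt_iff_exists_rat_btwn.1 hc
  have hq3 : ENNReal.ofReal q < min (dimH Z) ((n - 1 : ℕ) : ℝ≥0∞) := hq2
  have hqpos : 0 < (q : ℝ) := by
    by_contra hcon
    push Not at hcon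
    have : (Real.toNNReal q : ℝ≥0∞) = 0 := by
      rw [Real.toNNReal_of_nonpos hcon]; rfl
    rw [this] at hq1
    exact not_lt_zero hq1
  exact hq1.trans_le (hu q hqpos hq3)

end Pool.Agent.Helper28.TP
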