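import Mathlib

/-! Volume of sets which are thin along the rays from a point. -/

set_option linter.unusedSectionVars false

open MeasureTheory Measure Set Metric
open scoped ENNReal NNReal

namespace Pool.Agent.Helper28.TP

lemma line_bound (T : Set ℝ) (hT : MeasurableSet T) (n : ℕ) (R κ : ℝ) (h0 : ∀ t ∈ T, 0 < t)
    (hR : ∀ t ∈ T, t ≤ R) (hκ : ∀ t₁ ∈ T, ∀ t₂ ∈ T, t₁ < t₂ → t₂ ^ 2 - t₁ ^ 2 ≤ κ) (hκ0 : 0 ≤ κ) :
    ∫⁻ t in T, ENNReal.ofReal (t ^ (n + 1)) ≤ ENNReal.ofReal (R ^ n * κ) := by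
  rcases T.eq_empty_or_nonempty with hTe | ⟨t₀, ht₀⟩
  · simp [hTe]
  have hR0 : 0 ≤ R := (h0 _ ht₀).le.trans (hR _ ht₀)
  have h1 : ∫⁻ t in T, ENNReal.ofReal |2 * t| * (1 : ℝ≥0∞) = volume ((fun t : ℝ => t ^ 2) '' T) := by
    rw [← lintegral_image_eq_lintegral_abs_deriv_mul hT (f := fun t : ℝ => t ^ 2)
      (f' := fun t => 2 * t) (g := fun _ => 1)]
    · simp
    · intro x _
      have := (hasDerivAt_pow 2 x).hasDerivWithinAt (s := T)
      simpa using this
    · intro a ha b hb hab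
      exact (pow_left_inj₀ (h0 a ha).le (h0 b hb).le two_ne_zero).1 hab
  have h2 : volume ((fun t : ℝ => t ^ 2) '' T) ≤ ENNReal.ofReal κ := by
    refine (Real.volume_le_diam _).trans ?_
    refine ediam_le ?_
    rintro _ ⟨a, ha, rfl⟩ _ ⟨b, hb, rfl⟩
    rw [edist_dist, Real.dist_eq]
    refine ENNReal.ofReal_le_ofReal ?_
    rcases lt_trichotomy a b with hab | hab | hab
    · rw [abs_sub_comm, abs_of_nonneg]
      · exact hκ a ha b hb hab
      · have := h0 a ha
        nlinarith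
    · simp [hab, hκ0]
    · rw [abs_of_nonneg]
      · exact hκ b hb a ha hab
      · have := h0 b hb
        nlinarith
  calc ∫⁻ t in T, ENNReal.ofReal (t ^ (n + 1))
      ≤ ∫⁻ t in T, ENNReal.ofReal (R ^ n) * (ENNReal.ofReal |2 * t| * 1) := by
        refine setLIntegral_mono' hT fun t ht => ?_
        rw [mul_one, ← ENNReal.ofReal_mul (by positivity)]
        refine ENNReal.ofReal_le_ofReal ?_
        have h3 := h0 t ht
        rw [abs_of_pos (by positivity), pow_succ]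
        have h4 : t ^ n ≤ R ^ n := by gcongr; exact hR t ht
        have h5 : 0 ≤ R ^ n := by positivity
        calc t ^ n * t ≤ R ^ n * t := by gcongr
          _ ≤ R ^ n * (2 * t) := by nlinarith [mul_nonneg h5 h3.le]
    _ = ENNReal.ofReal (R ^ n) * volume ((fun t : ℝ => t ^ 2) '' T) := by
        rw [lintegral_const_mul' _ _ ENNReal.ofReal_ne_top, h1]
    _ ≤ ENNReal.ofReal (R ^ n) * ENNReal.ofReal κ := by gcongr
    _ = _ := (ENNReal.ofReal_mul (by positivity)).symm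

variable {P : Type*} [NormedAddCommGroup P] [NormedSpace ℝ P] [FiniteDimensional ℝ P]
  [MeasurableSpace P] [BorelSpace P] (vol : Measure P) [vol.IsAddHaarMeasure]

lemma radial_bound {N : ℕ} (hN : Module.finrank ℝ P = N + 2) (A : Set P) (hA : MeasurableSet A)
    (p₀ : P) (R κ : ℝ) (hκ0 : 0 ≤ κ) (hAR : A ⊆ closedBall p₀ R)
    (h : ∀ θ : P, ‖θ‖ = 1 → ∀ t₁ t₂ : ℝ, 0 < t₁ → t₁ < t₂ → p₀ + t₁ • θ ∈ A → p₀ + t₂ • θ ∈ A →
      t₂ ^ 2 - t₁ ^ 2 ≤ κ) :
    vol A ≤ vol.toSphere univ * ENNReal.ofReal (R ^ N * κ) := by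
  set A₀ : Set P := (fun u => p₀ + u) ⁻¹' A with hA₀
  have hA₀m : MeasurableSet A₀ := hA.preimage (measurable_const_add p₀)
  have e1 : vol A = vol A₀ := (measure_preimage_add vol p₀ A).symm
  have : Nontrivial P := by
    apply Module.nontrivial_of_finrank_pos (R := ℝ)
    omega
  have e2 : vol A₀ = (vol.comap ((↑) : ({0}ᶜ : Set P) → P)) (((↑) : ({0}ᶜ : Set P) → P) ⁻¹' A₀) := by
    rw [comap_subtype_coe_apply (measurableSet_singleton (0 : P)).compl, Subtype.image_preimage_coe,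
      inter_comm]
    exact (measure_sdiff_null (μ := vol) (s := A₀) (measure_singleton 0)).symm
  set S : Set (sphere (0 : P) 1 × Ioi (0 : ℝ)) := {q | (q.2 : ℝ) • (q.1 : P) ∈ A₀} with hS
  have hSm : MeasurableSet S := by
    refine hA₀m.preimage ?_
    exact Continuous.measurable (by fun_prop)
  have e3 : ((↑) : ({0}ᶜ : Set P) → P) ⁻¹' A₀ = (homeomorphUnitSphereProd P) ⁻¹' S := by
    ext y
    simp only [mem_preimage, hS, mem_ofPred_eq]
    have : ((homeomorphUnitSphereProd P y).2 : ℝ) • ((homeomorphUnitSphereProd P y).1 : P) = (y : P) := by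
      have h1 := (homeomorphUnitSphereProd P).symm_apply_apply y
      have h2 := congrArg (Subtype.val) h1
      rw [homeomorphUnitSphereProd_symm_apply_coe] at h2
      exact h2
    rw [this]
  rw [e1, e2, e3, (measurePreserving_homeomorphUnitSphereProd vol).measure_preimage hSm.nullMeasurableSet,
    prod_apply hSm]
  have key : ∀ θ : sphere (0 : P) 1, volumeIoiPow (Module.finrank ℝ P - 1) (Prod.mk θ ⁻¹' S) ≤
      ENNReal.ofReal (R ^ N * κ) := by
    intro θ
    have hm : MeasurableSet (Prod.mk θ ⁻¹' S) := hSm.preimage measurable_prodMk_left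
    rw [volumeIoiPow, withDensity_apply _ hm, setLIntegral_subtype measurableSet_Ioi _
      (fun a : ℝ => ENNReal.ofReal (a ^ (Module.finrank ℝ P - 1)))]
    rw [show Module.finrank ℝ P - 1 = N + 1 by omega]
    apply line_bound
    · exact (MeasurableEmbedding.subtype_coe measurableSet_Ioi).measurableSet_image' hm
    · rintro _ ⟨t, _, rfl⟩
      exact t.2
    · rintro _ ⟨t, ht, rfl⟩
      have h1 : p₀ + (t : ℝ) • (θ : P) ∈ A := ht
      have h2 := hAR h1
      rw [mem_closedBall, dist_eq_norm, add_sub_cancel_left, norm_smul, norm_eq_of_mem_sphere, mul_one,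
        Real.norm_eq_abs, abs_of_pos t.2] at h2
      exact h2
    · rintro _ ⟨t₁, ht₁, rfl⟩ _ ⟨t₂, ht₂, rfl⟩ h12
      exact h θ (norm_eq_of_mem_sphere θ) t₁ t₂ t₁.2 h12 ht₁ ht₂
    · exact hκ0
  calc ∫⁻ θ, volumeIoiPow (Module.finrank ℝ P - 1) (Prod.mk θ ⁻¹' S) ∂vol.toSphere
      ≤ ∫⁻ _, ENNReal.ofReal (R ^ N * κ) ∂vol.toSphere := lintegral_mono key
    _ = _ := by rw [lintegral_const, mul_comm]

end Pool.Agent.Helper28.TP
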