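import Pool.Agent.Helper28.TP.Radial

/-! Volume of the set where `|⟪ψ u, ω⟫| < ε`, for a curved map `ψ` into the sphere. -/

set_option linter.unusedSectionVars false

open MeasureTheory Measure Set Metric Filter Topology
open scoped ENNReal NNReal RealInnerProductSpace

namespace Pool.Agent.Helper28.TP

lemma mono_one {f f' f'' : ℝ → ℝ} {c T : ℝ}
    (h1 : ∀ t ∈ Icc 0 T, HasDerivAt f (f' t) t)
    (h2 : ∀ t ∈ Icc 0 T, HasDerivAt f' (f'' t) t) (h3 : ∀ t ∈ Icc 0 T, 2 * c ≤ f'' t)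
    (hmin : ∀ t ∈ Icc 0 T, f 0 ≤ f t) (t₁ t₂ : ℝ) (h0 : 0 ≤ t₁) (h12 : t₁ < t₂) (hT : t₂ ≤ T) :
    c * (t₂ ^ 2 - t₁ ^ 2) ≤ f t₂ - f t₁ := by
  have hT0 : 0 < T := by linarith
  -- derivative at zero
  have hd0 : 0 ≤ f' 0 := by
    have hd := (h1 0 ⟨le_rfl, hT0.le⟩).hasDerivWithinAt (s := Ioi 0)
    rw [hasDerivWithinAt_iff_tendsto_slope' (by simp)] at hd
    refine ge_of_tendsto hd ?_
    have hev : ∀ᶠ t in 𝓝[>] (0 : ℝ), t ∈ Ioc 0 T := Ioc_mem_nhdsGT hT0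
    filter_upwards [hev] with t ht
    rw [slope_def_field]
    exact div_nonneg (sub_nonneg.2 (hmin t ⟨ht.1.le, ht.2⟩)) (by linarith [ht.1])
  have hg : MonotoneOn (fun t => f' t - 2 * c * t) (Icc 0 T) := by
    refine monotoneOn_of_hasDerivWithinAt_nonneg (convex_Icc 0 T) (f' := fun t => f'' t - 2 * c) ?_ ?_ ?_
    · intro t ht
      exact ((h2 t ht).continuousAt.sub (by fun_prop)).continuousWithinAt
    · intro t ht
      have ht' := interior_subset ht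
      have h5 : HasDerivAt (fun t => f' t - 2 * c * t) (f'' t - 2 * c * 1) t :=
        (h2 t ht').sub ((hasDerivAt_id t).const_mul (2 * c))
      rw [mul_one] at h5
      exact h5.hasDerivWithinAt
    · intro t ht
      have ht' := interior_subset ht
      linarith [h3 t ht']
  have hh : MonotoneOn (fun t => f t - c * t ^ 2) (Icc 0 T) := by
    refine monotoneOn_of_hasDerivWithinAt_nonneg (convex_Icc 0 T) (f' := fun t => f' t - 2 * c * t) ?_ ?_ ?_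
    · intro t ht
      exact ((h1 t ht).continuousAt.sub (by fun_prop)).continuousWithinAt
    · intro t ht
      have ht' := interior_subset ht
      have h5 : HasDerivAt (fun t => f t - c * t ^ 2) (f' t - c * (((2 : ℕ) : ℝ) * t ^ (2 - 1))) t :=
        (h1 t ht').sub ((hasDerivAt_pow 2 t).const_mul c)
      have e : f' t - c * (((2 : ℕ) : ℝ) * t ^ (2 - 1)) = f' t - 2 * c * t := by
        simp; ring
      rw [e] at h5
      exact h5.hasDerivWithinAt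
    · intro t ht
      have ht' := interior_subset ht
      have := hg ⟨le_rfl, hT0.le⟩ ht' ht'.1
      simp only [mul_zero, sub_zero] at this
      linarith
  have := hh ⟨h0, by linarith⟩ ⟨by linarith, hT⟩ h12.le
  simp only at this
  linarith

variable {P : Type*} [NormedAddCommGroup P] [NormedSpace ℝ P] [FiniteDimensional ℝ P]
  [MeasurableSpace P] [BorelSpace P] (vol : Measure P) [vol.IsAddHaarMeasure]
  {E : Type*} [NormedAddCommGroup E] [InnerProductSpace ℝ E]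

/-- the derivative of `t ↦ ⟪ψ (p + t a), ω⟫` -/
lemma deriv_one {U : Set P} (hU : IsOpen U) {ψ : P → E} (hψ : ContDiffOn ℝ 2 ψ U) (ω : E) (p a : P)
    (t : ℝ) (ht : p + t • a ∈ U) :
    HasDerivAt (fun t : ℝ => ⟪ψ (p + t • a), ω⟫) ⟪fderiv ℝ ψ (p + t • a) a, ω⟫ t := by
  have h1 : HasFDerivAt ψ (fderiv ℝ ψ (p + t • a)) (p + t • a) :=
    ((hψ.contDiffAt (hU.mem_nhds ht)).differentiableAt (by norm_num)).hasFDerivAt
  have h2 : HasDerivAt (fun t : ℝ => p + t • a) a t := by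
    simpa using ((hasDerivAt_id t).smul_const a).const_add p
  have h3 : HasDerivAt (fun t : ℝ => ψ (p + t • a)) (fderiv ℝ ψ (p + t • a) a) t :=
    h1.comp_hasDerivAt t h2
  simpa using h3.inner ℝ (hasDerivAt_const t ω)

lemma deriv_two {U : Set P} (hU : IsOpen U) {ψ : P → E} (hψ : ContDiffOn ℝ 2 ψ U) (ω : E) (p a : P)
    (t : ℝ) (ht : p + t • a ∈ U) :
    HasDerivAt (fun t : ℝ => ⟪fderiv ℝ ψ (p + t • a) a, ω⟫)
      ⟪fderiv ℝ (fderiv ℝ ψ) (p + t • a) a a, ω⟫ t := by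
  have h0 : ContDiffOn ℝ 1 (fderiv ℝ ψ) U := hψ.fderiv_of_isOpen hU (by norm_num)
  have h1 : HasFDerivAt (fderiv ℝ ψ) (fderiv ℝ (fderiv ℝ ψ) (p + t • a)) (p + t • a) :=
    ((h0.contDiffAt (hU.mem_nhds ht)).differentiableAt (by norm_num)).hasFDerivAt
  have h2 : HasDerivAt (fun t : ℝ => p + t • a) a t := by
    simpa using ((hasDerivAt_id t).smul_const a).const_add p
  have h3 : HasDerivAt (fun t : ℝ => fderiv ℝ ψ (p + t • a)) (fderiv ℝ (fderiv ℝ ψ) (p + t • a) a) t :=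
    h1.comp_hasDerivAt t h2
  have h4 : HasDerivAt (fun t : ℝ => fderiv ℝ ψ (p + t • a) a)
      (fderiv ℝ (fderiv ℝ ψ) (p + t • a) a a) t := by
    simpa using h3.clm_apply (hasDerivAt_const t a)
  simpa using h4.inner ℝ (hasDerivAt_const t ω)

/-- The set in question. -/
def Sub (ψ : P → E) (u₀ : P) (r : ℝ) (ω : E) (ε : ℝ) : Set P :=
  {u | u ∈ closedBall u₀ r ∧ |⟪ψ u, ω⟫| < ε}

lemma measurableSet_Sub {U : Set P} (hU : IsOpen U) {ψ : P → E} (hψ : ContDiffOn ℝ 2 ψ U) (u₀ : P)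
    (r : ℝ) (hr : closedBall u₀ r ⊆ U) (ω : E) (ε : ℝ) : MeasurableSet (Sub ψ u₀ r ω ε) := by
  have h1 : ContinuousOn (fun u => |⟪ψ u, ω⟫|) (closedBall u₀ r) :=
    ((hψ.continuousOn.mono hr).inner continuousOn_const).abs
  have h2 : Sub ψ u₀ r ω ε = closedBall u₀ r ∩ (fun u => |⟪ψ u, ω⟫|) ⁻¹' (Iio ε) := rfl
  rw [h2]
  obtain ⟨O, hO, h3⟩ := (_root_.continuousOn_iff'.1 h1) (Iio ε) isOpen_Iio
  rw [inter_comm, h3]
  exact hO.measurableSet.inter measurableSet_closedBall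

/-- The local property at `ω₀`. -/
def LocalBound (U : Set P) (ψ : P → E) (u₀ : P) (S : Set E) : Prop :=
  ∃ r > 0, closedBall u₀ r ⊆ U ∧ ∃ C : ℝ, 0 ≤ C ∧ ∀ ω ∈ S, ‖ω‖ = 1 → ∀ ε : ℝ, 0 < ε →
    vol (Sub ψ u₀ r ω ε) ≤ ENNReal.ofReal (C * ε)

lemma caseA {U : Set P} (hU : IsOpen U) {ψ : P → E} (hψ : ContDiffOn ℝ 2 ψ U)
    (u₀ : P) (hu₀ : u₀ ∈ U) (ω₀ : E) (hne : ⟪ψ u₀, ω₀⟫ ≠ 0) :
    ∃ η > 0, LocalBound vol U ψ u₀ (ball ω₀ η) := by
  set c : ℝ := |⟪ψ u₀, ω₀⟫| with hc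
  have hc0 : 0 < c := abs_pos.2 hne
  have hcont : ContinuousAt (fun q : P × E => |⟪ψ q.1, q.2⟫|) (u₀, ω₀) := by
    have h1 : ContinuousAt ψ u₀ := hψ.continuousOn.continuousAt (hU.mem_nhds hu₀)
    exact ((h1.comp (f := Prod.fst) (x := (u₀, ω₀)) continuousAt_fst).inner continuousAt_snd).abs
  have hev : ∀ᶠ q in 𝓝 (u₀, ω₀), c / 2 < |⟪ψ (q : P × E).1, q.2⟫| :=
    hcont.eventually_const_lt (show c / 2 < |⟪ψ (u₀, ω₀).1, (u₀, ω₀).2⟫| by
      change c / 2 < |⟪ψ u₀, ω₀⟫|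
      linarith)
  have hev2 : ∀ᶠ q in 𝓝 (u₀, ω₀), (q : P × E).1 ∈ U :=
    continuousAt_fst.eventually (hU.mem_nhds hu₀)
  obtain ⟨δ, hδ, hball⟩ := Metric.eventually_nhds_iff.1 (hev.and hev2)
  refine ⟨δ, hδ, δ / 2, by positivity, ?_, ?_⟩
  · intro u hu
    refine (hball (y := (u, ω₀)) ?_).2
    rw [Prod.dist_eq, max_lt_iff]
    refine ⟨lt_of_le_of_lt hu (by simpa using hδ), by simpa using hδ⟩
  · refine ⟨(vol (closedBall u₀ (δ / 2))).toReal * (2 / c), by positivity, fun ω hω _ ε hε => ?_⟩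
    rcases le_or_gt ε (c / 2) with h1 | h1
    · have : Sub ψ u₀ (δ / 2) ω ε = ∅ := by
        refine eq_empty_of_forall_notMem fun u hu => ?_
        have h2 := (hball (y := (u, ω)) (by
          rw [Prod.dist_eq, max_lt_iff]
          exact ⟨lt_of_le_of_lt hu.1 (by simpa using hδ), hω⟩)).1
        have h3 := hu.2
        simp only at h2
        linarith
      rw [this]
      simp
    · calc vol (Sub ψ u₀ (δ / 2) ω ε) ≤ vol (closedBall u₀ (δ / 2)) := measure_mono fun u hu => hu.1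
        _ = ENNReal.ofReal ((vol (closedBall u₀ (δ / 2))).toReal) :=
          (ENNReal.ofReal_toReal measure_closedBall_lt_top.ne).symm
        _ ≤ _ := by
          refine ENNReal.ofReal_le_ofReal ?_
          have h2 : 1 ≤ 2 / c * ε := by
            rw [div_mul_eq_mul_div, le_div_iff₀ hc0]
            linarith
          have h3 : 0 ≤ (vol (closedBall u₀ (δ / 2))).toReal := ENNReal.toReal_nonneg
          nlinarith


lemma caseB {N : ℕ} (hN : Module.finrank ℝ P = N + 2) {U : Set P} (hU : IsOpen U) {ψ : P → E}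
    (hψ : ContDiffOn ℝ 2 ψ U)
    (u₀ : P) (hu₀ : u₀ ∈ U) (ω₀ : E) (hne : ∃ a, ⟪fderiv ℝ ψ u₀ a, ω₀⟫ ≠ 0) :
    ∃ η > 0, LocalBound vol U ψ u₀ (ball ω₀ η) := by
  -- a unit vector with positive derivative
  obtain ⟨e, he1, c, hc0, hce⟩ : ∃ e : P, ‖e‖ = 1 ∧ ∃ c : ℝ, 0 < c ∧ ⟪fderiv ℝ ψ u₀ e, ω₀⟫ = 4 * c := by
    obtain ⟨a, ha⟩ := hne
    have ha0 : a ≠ 0 := fun h => ha (by simp [h])
    have ha1 : 0 < ‖a‖ := norm_pos_iff.2 ha0
    rcases lt_or_gt_of_ne ha with h | h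
    · refine ⟨-(‖a‖⁻¹ • a), by rw [norm_neg, norm_smul, norm_inv, norm_norm, inv_mul_cancel₀ ha1.ne'],
        -(‖a‖⁻¹ * ⟪fderiv ℝ ψ u₀ a, ω₀⟫) / 4, ?_, ?_⟩
      · have : 0 < ‖a‖⁻¹ := by positivity
        have := mul_neg_of_pos_of_neg this h
        linarith
      · rw [map_neg, map_smul, inner_neg_left, real_inner_smul_left]
        ring
    · refine ⟨‖a‖⁻¹ • a, by rw [norm_smul, norm_inv, norm_norm, inv_mul_cancel₀ ha1.ne'],
        (‖a‖⁻¹ * ⟪fderiv ℝ ψ u₀ a, ω₀⟫) / 4, ?_, ?_⟩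
      · have : 0 < ‖a‖⁻¹ := by positivity
        have := mul_pos this h
        linarith
      · rw [map_smul, real_inner_smul_left]
        ring
  have h0 : ContDiffOn ℝ 1 (fderiv ℝ ψ) U := hψ.fderiv_of_isOpen hU (by norm_num)
  have h1 : ContinuousAt (fderiv ℝ ψ) u₀ := h0.continuousOn.continuousAt (hU.mem_nhds hu₀)
  set L : ℝ := ‖fderiv ℝ ψ u₀‖ + 1 with hL
  have hL1 : 1 ≤ L := by rw [hL]; linarith [norm_nonneg (fderiv ℝ ψ u₀)]
  have hL0 : 0 < L := by linarith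
  have hev : ∀ᶠ u in 𝓝 u₀, dist (fderiv ℝ ψ u) (fderiv ℝ ψ u₀) < min c 1 :=
    (Metric.tendsto_nhds.1 h1) _ (lt_min hc0 one_pos)
  obtain ⟨δ, hδ, hball⟩ := Metric.eventually_nhds_iff.1 (hev.and (hU.mem_nhds hu₀))
  set r : ℝ := δ / 2 with hr
  have hr0 : 0 < r := by positivity
  have hB : ∀ u ∈ closedBall u₀ r, u ∈ U ∧ ‖fderiv ℝ ψ u - fderiv ℝ ψ u₀‖ ≤ c ∧ ‖fderiv ℝ ψ u‖ ≤ L := by
    intro u hu
    have h2 := hball (y := u) (lt_of_le_of_lt hu (by rw [hr]; linarith))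
    have h3 : ‖fderiv ℝ ψ u - fderiv ℝ ψ u₀‖ < min c 1 := by rw [← dist_eq_norm]; exact h2.1
    refine ⟨h2.2, (h3.trans_le (min_le_left _ _)).le, ?_⟩
    have h4 := (h3.trans_le (min_le_right _ _)).le
    calc ‖fderiv ℝ ψ u‖ = ‖fderiv ℝ ψ u₀ + (fderiv ℝ ψ u - fderiv ℝ ψ u₀)‖ := by congr 1; abel
      _ ≤ ‖fderiv ℝ ψ u₀‖ + ‖fderiv ℝ ψ u - fderiv ℝ ψ u₀‖ := norm_add_le _ _
      _ ≤ L := by rw [hL]; linarith
  set κ₁ : ℝ := c / L with hκ₁
  have hκ₁0 : 0 < κ₁ := by positivity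
  set M : ℝ := r + 2 * r / κ₁ with hM
  have hMr : 0 < M - r := by
    rw [hM]
    have : 0 < 2 * r / κ₁ := by positivity
    linarith
  have hM0 : 0 < M := by linarith
  set p₀ : P := u₀ - M • e with hp₀
  refine ⟨c / L, by positivity, r, hr0, fun u hu => (hB u hu).1,
    ((vol.toSphere univ).toReal * (M + r) ^ N * (4 * (M + r) / c)), by positivity, ?_⟩
  intro ω hω hω1 ε hε
  have hrad : vol (Sub ψ u₀ r ω ε) ≤ vol.toSphere univ *
      ENNReal.ofReal ((M + r) ^ N * (4 * (M + r) * ε / c)) := by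
    refine radial_bound vol hN (Sub ψ u₀ r ω ε)
      (measurableSet_Sub hU hψ u₀ r (fun u hu => (hB u hu).1) ω ε) p₀ (M + r) _ (by positivity) ?_ ?_
    · intro u hu
      have h2 := hu.1
      rw [mem_closedBall, dist_eq_norm] at h2 ⊢
      calc ‖u - p₀‖ = ‖M • e + (u - u₀)‖ := by rw [hp₀]; congr 1; abel
        _ ≤ ‖M • e‖ + ‖u - u₀‖ := norm_add_le _ _
        _ ≤ M + r := by
          rw [norm_smul, he1, Real.norm_eq_abs, abs_of_pos hM0]
          linarith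
    · intro θ hθ t₁ t₂ ht₁ ht₁₂ hA₁ hA₂
      have hseg : ∀ t ∈ Icc t₁ t₂, p₀ + t • θ ∈ closedBall u₀ r := by
        intro t ht
        have hconv := convex_closedBall u₀ r
        have h3 := hconv.segment_subset hA₁.1 hA₂.1
        apply h3
        rw [segment_eq_image]
        refine ⟨(t - t₁) / (t₂ - t₁), ⟨div_nonneg (by linarith [ht.1]) (by linarith),
          (div_le_one (by linarith)).2 (by linarith [ht.2])⟩, ?_⟩
        have h4 : t₂ - t₁ ≠ 0 := by linarith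
        dsimp only
        rw [smul_add, smul_add, smul_smul, smul_smul]
        have h5 : p₀ + t • θ = ((1 - (t - t₁) / (t₂ - t₁)) + (t - t₁) / (t₂ - t₁)) • p₀ +
            ((1 - (t - t₁) / (t₂ - t₁)) * t₁ + (t - t₁) / (t₂ - t₁) * t₂) • θ := by
          congr 1
          · rw [sub_add_cancel, one_smul]
          · congr 1
            field_simp
            ring
        rw [h5, add_smul, add_smul]
        abel
      -- `t` is close to `M`
      have htM : ∀ t ∈ Icc t₁ t₂, |t - M| ≤ r := by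
        intro t ht
        have h3 := hseg t ht
        rw [mem_closedBall, dist_eq_norm] at h3
        have ht0 : 0 < t := lt_of_lt_of_le ht₁ ht.1
        have h4 : ‖t • θ‖ = t := by rw [norm_smul, hθ, Real.norm_eq_abs, abs_of_pos ht0, mul_one]
        have h5 : ‖M • e‖ = M := by rw [norm_smul, he1, Real.norm_eq_abs, abs_of_pos hM0, mul_one]
        calc |t - M| = |‖t • θ‖ - ‖M • e‖| := by rw [h4, h5]
          _ ≤ ‖t • θ - M • e‖ := abs_norm_sub_norm_le _ _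
          _ = ‖p₀ + t • θ - u₀‖ := by rw [hp₀]; congr 1; abel
          _ ≤ r := h3
      have hθe : ‖θ - e‖ ≤ κ₁ := by
        have h3 := hseg t₁ ⟨le_rfl, ht₁₂.le⟩
        rw [mem_closedBall, dist_eq_norm] at h3
        have h4 := htM t₁ ⟨le_rfl, ht₁₂.le⟩
        rw [abs_le] at h4
        have h5 : t₁ • (θ - e) = (p₀ + t₁ • θ - u₀) + (M - t₁) • e := by
          rw [hp₀, smul_sub, sub_smul]
          abel
        have h6 : t₁ * ‖θ - e‖ ≤ 2 * r := by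
          calc t₁ * ‖θ - e‖ = ‖t₁ • (θ - e)‖ := by
                rw [norm_smul, Real.norm_eq_abs, abs_of_pos ht₁]
            _ ≤ ‖p₀ + t₁ • θ - u₀‖ + ‖(M - t₁) • e‖ := by rw [h5]; exact norm_add_le _ _
            _ ≤ r + r := by
                rw [norm_smul, he1, mul_one, Real.norm_eq_abs]
                refine add_le_add h3 (abs_le.2 ⟨by linarith, by linarith⟩)
            _ = 2 * r := by ring
        have h7 : 2 * r / κ₁ ≤ t₁ := by
          have : M - r ≤ t₁ := by linarith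
          rw [hM] at this
          linarith
        have h8 : 2 * r ≤ κ₁ * t₁ := by
          rw [div_le_iff₀ hκ₁0] at h7
          linarith
        have h9 : t₁ * ‖θ - e‖ ≤ t₁ * κ₁ := by linarith
        exact le_of_mul_le_mul_left h9 ht₁
      -- lower bound of the derivative
      have hder : ∀ t ∈ Icc t₁ t₂, c ≤ ⟪fderiv ℝ ψ (p₀ + t • θ) θ, ω⟫ := by
        intro t ht
        obtain ⟨_, hb1, hb2⟩ := hB _ (hseg t ht)
        set u := p₀ + t • θ with hu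
        have e1 : ⟪fderiv ℝ ψ u θ, ω⟫ = ⟪fderiv ℝ ψ u₀ e, ω₀⟫ + ⟪fderiv ℝ ψ u₀ e, ω - ω₀⟫ +
            ⟪(fderiv ℝ ψ u - fderiv ℝ ψ u₀) e, ω⟫ + ⟪fderiv ℝ ψ u (θ - e), ω⟫ := by
          rw [_root_.sub_apply, map_sub]
          simp only [inner_sub_left, inner_sub_right]
          ring
        have b1 : |⟪fderiv ℝ ψ u₀ e, ω - ω₀⟫| ≤ c := by
          refine (abs_real_inner_le_norm _ _).trans ?_
          have i1 : ‖fderiv ℝ ψ u₀ e‖ ≤ L := by
            refine ((fderiv ℝ ψ u₀).le_opNorm e).trans ?_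
            rw [he1, mul_one, hL]
            linarith
          have i2 : ‖ω - ω₀‖ ≤ c / L := by
            rw [← dist_eq_norm]
            exact (mem_ball.1 hω).le
          calc ‖fderiv ℝ ψ u₀ e‖ * ‖ω - ω₀‖ ≤ L * (c / L) := by gcongr
            _ = c := by field_simp
        have b2 : |⟪(fderiv ℝ ψ u - fderiv ℝ ψ u₀) e, ω⟫| ≤ c := by
          refine (abs_real_inner_le_norm _ _).trans ?_
          rw [hω1, mul_one]
          refine ((fderiv ℝ ψ u - fderiv ℝ ψ u₀).le_opNorm e).trans ?_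
          rw [he1, mul_one]
          exact hb1
        have b3 : |⟪fderiv ℝ ψ u (θ - e), ω⟫| ≤ c := by
          refine (abs_real_inner_le_norm _ _).trans ?_
          rw [hω1, mul_one]
          refine ((fderiv ℝ ψ u).le_opNorm _).trans ?_
          calc ‖fderiv ℝ ψ u‖ * ‖θ - e‖ ≤ L * (c / L) := by gcongr
            _ = c := by field_simp
        rw [abs_le] at b1 b2 b3
        rw [e1, hce]
        linarith [b1.1, b2.1, b3.1]
      -- mean value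
      have hmono : MonotoneOn (fun t => ⟪ψ (p₀ + t • θ), ω⟫ - c * t) (Icc t₁ t₂) := by
        refine monotoneOn_of_hasDerivWithinAt_nonneg (convex_Icc t₁ t₂)
          (f' := fun t => ⟪fderiv ℝ ψ (p₀ + t • θ) θ, ω⟫ - c * 1) ?_ ?_ ?_
        · intro t ht
          exact ((deriv_one hU hψ ω p₀ θ t (hB _ (hseg t ht)).1).continuousAt.sub
            (by fun_prop)).continuousWithinAt
        · intro t ht
          have ht' := interior_subset ht
          have h5 : HasDerivAt (fun t => ⟪ψ (p₀ + t • θ), ω⟫ - c * t)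
              (⟪fderiv ℝ ψ (p₀ + t • θ) θ, ω⟫ - c * 1) t :=
            (deriv_one hU hψ ω p₀ θ t (hB _ (hseg t ht')).1).sub ((hasDerivAt_id t).const_mul c)
          exact h5.hasDerivWithinAt
        · intro t ht
          have ht' := interior_subset ht
          linarith [hder t ht']
      have h3 := hmono ⟨le_rfl, ht₁₂.le⟩ ⟨ht₁₂.le, le_rfl⟩ ht₁₂.le
      simp only at h3
      have h4 := abs_lt.1 hA₁.2
      have h5 := abs_lt.1 hA₂.2
      have h6 : c * (t₂ - t₁) ≤ 2 * ε := by linarith [h4.1, h5.2]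
      have h7 : t₂ - t₁ ≤ 2 * ε / c := by
        rw [le_div_iff₀ hc0]; linarith
      have h8 := abs_le.1 (htM t₂ ⟨ht₁₂.le, le_rfl⟩)
      calc t₂ ^ 2 - t₁ ^ 2 = (t₂ - t₁) * (t₂ + t₁) := by ring
        _ ≤ (2 * ε / c) * (2 * (M + r)) := by
          apply mul_le_mul h7 (by linarith [h8.2]) (by linarith) (by positivity)
        _ = 4 * (M + r) * ε / c := by ring
  refine hrad.trans (le_of_eq ?_)
  have hfin : vol.toSphere univ ≠ ⊤ := measure_ne_top _ _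
  rw [← ENNReal.ofReal_toReal hfin, ← ENNReal.ofReal_mul ENNReal.toReal_nonneg,
    ENNReal.toReal_ofReal ENNReal.toReal_nonneg]
  congr 1
  ring

lemma caseC_pos {N : ℕ} (hN : Module.finrank ℝ P = N + 2) {U : Set P} (hU : IsOpen U) {ψ : P → E}
    (hψ : ContDiffOn ℝ 2 ψ U)
    (u₀ : P) (hu₀ : u₀ ∈ U) (ω₀ : E)
    (hpos : ∀ a ≠ 0, 0 < ⟪fderiv ℝ (fderiv ℝ ψ) u₀ a a, ω₀⟫) :
    ∃ η > 0, LocalBound vol U ψ u₀ (ball ω₀ η) := by
  have hnt : Nontrivial P := by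
    apply Module.nontrivial_of_finrank_pos (R := ℝ)
    omega
  have h0 : ContDiffOn ℝ 1 (fderiv ℝ ψ) U := hψ.fderiv_of_isOpen hU (by norm_num)
  have h00 : ContDiffOn ℝ 0 (fderiv ℝ (fderiv ℝ ψ)) U := h0.fderiv_of_isOpen hU (by norm_num)
  have h1 : ∀ c : ℝ, 0 < c → ∀ᶠ u in 𝓝 u₀,
      ‖fderiv ℝ (fderiv ℝ ψ) u - fderiv ℝ (fderiv ℝ ψ) u₀‖ < c := by
    intro c hc0
    have h1' := h00.continuousOn.continuousAt (hU.mem_nhds hu₀)
    have h2 := (Metric.tendsto_nhds.1 h1') c hc0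
    filter_upwards [h2] with u hu
    rwa [dist_eq_norm] at hu
  set B₀ := fderiv ℝ (fderiv ℝ ψ) u₀ with hB₀
  -- coercivity
  obtain ⟨c, hc0, hc⟩ : ∃ c : ℝ, 0 < c ∧ ∀ a : P, 4 * c * ‖a‖ ^ 2 ≤ ⟪B₀ a a, ω₀⟫ := by
    have hcomp : IsCompact (sphere (0 : P) 1) := isCompact_sphere 0 1
    have hne : (sphere (0 : P) 1).Nonempty := NormedSpace.sphere_nonempty.2 zero_le_one
    obtain ⟨a₀, ha₀, hmin⟩ := hcomp.exists_isMinOn hne (f := fun a => ⟪B₀ a a, ω₀⟫)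
      (by fun_prop)
    have ha₀' : a₀ ≠ 0 := by
      intro h
      rw [h] at ha₀
      simp at ha₀
    refine ⟨⟪B₀ a₀ a₀, ω₀⟫ / 4, by have := hpos a₀ ha₀'; linarith, fun a => ?_⟩
    rcases eq_or_ne a 0 with rfl | ha
    · simp
    · have ha1 : 0 < ‖a‖ := norm_pos_iff.2 ha
      have h2 : ‖a‖⁻¹ • a ∈ sphere (0 : P) 1 := by
        rw [mem_sphere_zero_iff_norm, norm_smul, norm_inv, norm_norm, inv_mul_cancel₀ ha1.ne']
      have h3 : ⟪B₀ a₀ a₀, ω₀⟫ ≤ ⟪B₀ (‖a‖⁻¹ • a) (‖a‖⁻¹ • a), ω₀⟫ := hmin h2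
      have h4 : ⟪B₀ (‖a‖⁻¹ • a) (‖a‖⁻¹ • a), ω₀⟫ = ‖a‖⁻¹ ^ 2 * ⟪B₀ a a, ω₀⟫ := by
        simp only [map_smul, _root_.smul_apply, real_inner_smul_left]
        ring
      rw [h4] at h3
      have h5 : ‖a‖⁻¹ ^ 2 * ‖a‖ ^ 2 = 1 := by
        rw [← mul_pow, inv_mul_cancel₀ ha1.ne', one_pow]
      calc 4 * (⟪B₀ a₀ a₀, ω₀⟫ / 4) * ‖a‖ ^ 2 = ⟪B₀ a₀ a₀, ω₀⟫ * ‖a‖ ^ 2 := by ring
        _ ≤ ‖a‖⁻¹ ^ 2 * ⟪B₀ a a, ω₀⟫ * ‖a‖ ^ 2 := by gcongr
        _ = (‖a‖⁻¹ ^ 2 * ‖a‖ ^ 2) * ⟪B₀ a a, ω₀⟫ := by ring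
        _ = _ := by rw [h5, one_mul]
  set L : ℝ := ‖B₀‖ + 1 with hL
  have hL0 : 0 < L := by rw [hL]; linarith [norm_nonneg B₀]
  have hev : ∀ᶠ u in 𝓝 u₀, ‖fderiv ℝ (fderiv ℝ ψ) u - B₀‖ < c := h1 c hc0
  obtain ⟨δ, hδ, hball⟩ := Metric.eventually_nhds_iff.1 (hev.and (hU.mem_nhds hu₀))
  set r : ℝ := δ / 2 with hr
  have hr0 : 0 < r := by positivity
  have hB : ∀ u ∈ closedBall u₀ r, u ∈ U ∧ ‖fderiv ℝ (fderiv ℝ ψ) u - B₀‖ ≤ c := by
    intro u hu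
    have h2 := hball (y := u) (lt_of_le_of_lt hu (by rw [hr]; linarith))
    exact ⟨h2.2, h2.1.le⟩
  refine ⟨c / L, by positivity, r, hr0, fun u hu => (hB u hu).1,
    ((vol.toSphere univ).toReal * (2 * r) ^ N * (2 / c)), by positivity, ?_⟩
  intro ω hω hω1 ε hε
  -- second derivative bound
  have hsec : ∀ u ∈ closedBall u₀ r, ∀ a : P, ‖a‖ = 1 →
      2 * c ≤ ⟪fderiv ℝ (fderiv ℝ ψ) u a a, ω⟫ := by
    intro u hu a ha
    obtain ⟨_, hb1⟩ := hB u hu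
    have e1 : ⟪fderiv ℝ (fderiv ℝ ψ) u a a, ω⟫ = ⟪B₀ a a, ω₀⟫ + ⟪B₀ a a, ω - ω₀⟫ +
        ⟪(fderiv ℝ (fderiv ℝ ψ) u - B₀) a a, ω⟫ := by
      rw [_root_.sub_apply, _root_.sub_apply]
      simp only [inner_sub_left, inner_sub_right]
      ring
    have b1 : |⟪B₀ a a, ω - ω₀⟫| ≤ c := by
      refine (abs_real_inner_le_norm _ _).trans ?_
      have i1 : ‖B₀ a a‖ ≤ L := by
        refine (B₀.le_opNorm₂ a a).trans ?_
        rw [ha, mul_one, mul_one, hL]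
        linarith
      have i2 : ‖ω - ω₀‖ ≤ c / L := by
        rw [← dist_eq_norm]
        exact (mem_ball.1 hω).le
      calc ‖B₀ a a‖ * ‖ω - ω₀‖ ≤ L * (c / L) := by gcongr
        _ = c := by field_simp
    have b2 : |⟪(fderiv ℝ (fderiv ℝ ψ) u - B₀) a a, ω⟫| ≤ c := by
      refine (abs_real_inner_le_norm _ _).trans ?_
      rw [hω1, mul_one]
      refine ((fderiv ℝ (fderiv ℝ ψ) u - B₀).le_opNorm₂ a a).trans ?_
      rw [ha, mul_one, mul_one]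
      exact hb1
    have h3 := hc a
    rw [ha] at h3
    rw [abs_le] at b1 b2
    rw [e1]
    linarith [b1.1, b2.1]
  -- the minimum
  have hcompact : IsCompact (closedBall u₀ r) := isCompact_closedBall u₀ r
  have hcontψ : ContinuousOn (fun u => ⟪ψ u, ω⟫) (closedBall u₀ r) :=
    (hψ.continuousOn.mono fun u hu => (hB u hu).1).inner continuousOn_const
  obtain ⟨p₀, hp₀, hmin⟩ := hcompact.exists_isMinOn ⟨u₀, mem_closedBall_self hr0.le⟩ hcontψ
  have hrad : vol (Sub ψ u₀ r ω ε) ≤ vol.toSphere univ *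
      ENNReal.ofReal ((2 * r) ^ N * (2 * ε / c)) := by
    refine radial_bound vol hN (Sub ψ u₀ r ω ε)
      (measurableSet_Sub hU hψ u₀ r (fun u hu => (hB u hu).1) ω ε) p₀ (2 * r) _ (by positivity) ?_ ?_
    · intro u hu
      have h2 := hu.1
      rw [mem_closedBall] at h2 hp₀ ⊢
      calc dist u p₀ ≤ dist u u₀ + dist u₀ p₀ := dist_triangle _ _ _
        _ ≤ r + r := by rw [dist_comm u₀ p₀]; gcongr
        _ = 2 * r := by ring
    · intro θ hθ t₁ t₂ ht₁ ht₁₂ hA₁ hA₂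
      have hseg : ∀ t ∈ Icc 0 t₂, p₀ + t • θ ∈ closedBall u₀ r := by
        intro t ht
        have hconv := convex_closedBall u₀ r
        have h3 := hconv.segment_subset hp₀ hA₂.1
        apply h3
        rw [segment_eq_image]
        have ht₂ : 0 < t₂ := by linarith
        refine ⟨t / t₂, ⟨div_nonneg ht.1 ht₂.le, (div_le_one ht₂).2 ht.2⟩, ?_⟩
        dsimp only
        rw [smul_add, smul_smul, div_mul_cancel₀ _ ht₂.ne', ← add_assoc, ← add_smul, sub_add_cancel,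
          one_smul]
      have h3 := mono_one (f := fun t => ⟪ψ (p₀ + t • θ), ω⟫)
        (f' := fun t => ⟪fderiv ℝ ψ (p₀ + t • θ) θ, ω⟫)
        (f'' := fun t => ⟪fderiv ℝ (fderiv ℝ ψ) (p₀ + t • θ) θ θ, ω⟫) (c := c) (T := t₂)
        (fun t ht => deriv_one hU hψ ω p₀ θ t (hB _ (hseg t ht)).1)
        (fun t ht => deriv_two hU hψ ω p₀ θ t (hB _ (hseg t ht)).1)
        (fun t ht => hsec _ (hseg t ht) θ hθ)
        (fun t ht => by
          have h8 : ⟪ψ p₀, ω⟫ ≤ ⟪ψ (p₀ + t • θ), ω⟫ := hmin (hseg t ht)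
          rw [zero_smul, add_zero]
          exact h8) t₁ t₂ ht₁.le ht₁₂ le_rfl
      have h4 := abs_lt.1 hA₁.2
      have h5 := abs_lt.1 hA₂.2
      rw [le_div_iff₀ hc0]
      linarith [h4.1, h5.2]
  refine hrad.trans (le_of_eq ?_)
  have hfin : vol.toSphere univ ≠ ⊤ := measure_ne_top _ _
  rw [← ENNReal.ofReal_toReal hfin, ← ENNReal.ofReal_mul ENNReal.toReal_nonneg,
    ENNReal.toReal_ofReal ENNReal.toReal_nonneg]
  congr 1
  ring

lemma Sub_neg (ψ : P → E) (u₀ : P) (r : ℝ) (ω : E) (ε : ℝ) : Sub ψ u₀ r (-ω) ε = Sub ψ u₀ r ω ε := by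
  unfold Sub
  simp only [inner_neg_right, abs_neg]

lemma caseC_neg {N : ℕ} (hN : Module.finrank ℝ P = N + 2) {U : Set P} (hU : IsOpen U) {ψ : P → E}
    (hψ : ContDiffOn ℝ 2 ψ U)
    (u₀ : P) (hu₀ : u₀ ∈ U) (ω₀ : E)
    (hpos : ∀ a ≠ 0, ⟪fderiv ℝ (fderiv ℝ ψ) u₀ a a, ω₀⟫ < 0) :
    ∃ η > 0, LocalBound vol U ψ u₀ (ball ω₀ η) := by
  obtain ⟨η, hη, r, hr, hrU, C, hC, h⟩ := caseC_pos vol hN hU hψ u₀ hu₀ (-ω₀) (fun a ha => by
    rw [inner_neg_right]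
    linarith [hpos a ha])
  refine ⟨η, hη, r, hr, hrU, C, hC, fun ω hω hω1 ε hε => ?_⟩
  rw [← Sub_neg]
  refine h (-ω) ?_ (by rwa [norm_neg]) ε hε
  rw [mem_ball, dist_neg_neg]
  exact hω

/-- The uniform bound. -/
lemma sublevel {N : ℕ} (hN : Module.finrank ℝ P = N + 2) [FiniteDimensional ℝ E]
    {U : Set P} (hU : IsOpen U) {ψ : P → E} (hψ : ContDiffOn ℝ 2 ψ U)
    (u₀ : P) (hu₀ : u₀ ∈ U)
    (H : ∀ ω : E, ‖ω‖ = 1 → ⟪ψ u₀, ω⟫ = 0 → (∀ a, ⟪fderiv ℝ ψ u₀ a, ω⟫ = 0) →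
      (∀ a ≠ 0, 0 < ⟪fderiv ℝ (fderiv ℝ ψ) u₀ a a, ω⟫) ∨
      (∀ a ≠ 0, ⟪fderiv ℝ (fderiv ℝ ψ) u₀ a a, ω⟫ < 0)) :
    LocalBound vol U ψ u₀ (sphere 0 1) := by
  have hcomp : IsCompact (sphere (0 : E) 1) := isCompact_sphere 0 1
  refine hcomp.induction_on (p := fun S => LocalBound vol U ψ u₀ S) ?_ ?_ ?_ ?_
  · obtain ⟨r, hr, hrU⟩ := Metric.isOpen_iff.1 hU u₀ hu₀
    exact ⟨r / 2, by positivity, (closedBall_subset_ball (by linarith)).trans hrU, 0, le_rfl,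
      fun ω hω => absurd hω (notMem_empty _)⟩
  · rintro S T hST ⟨r, hr, hrU, C, hC, h⟩
    exact ⟨r, hr, hrU, C, hC, fun ω hω => h ω (hST hω)⟩
  · rintro S T ⟨r, hr, hrU, C, hC, h⟩ ⟨r', hr', hrU', C', hC', h'⟩
    have hmono : ∀ r₁ r₂ : ℝ, r₁ ≤ r₂ → ∀ ω : E, ∀ ε : ℝ, Sub ψ u₀ r₁ ω ε ⊆ Sub ψ u₀ r₂ ω ε :=
      fun r₁ r₂ h12 ω ε u hu => ⟨closedBall_subset_closedBall h12 hu.1, hu.2⟩
    refine ⟨min r r', lt_min hr hr', (closedBall_subset_closedBall (min_le_left _ _)).trans hrU,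
      max C C', le_max_of_le_left hC, fun ω hω hω1 ε hε => ?_⟩
    rcases hω with hω | hω
    · refine (measure_mono (hmono _ r (min_le_left _ _) ω ε)).trans ((h ω hω hω1 ε hε).trans ?_)
      exact ENNReal.ofReal_le_ofReal (mul_le_mul_of_nonneg_right (le_max_left _ _) hε.le)
    · refine (measure_mono (hmono _ r' (min_le_right _ _) ω ε)).trans ((h' ω hω hω1 ε hε).trans ?_)
      exact ENNReal.ofReal_le_ofReal (mul_le_mul_of_nonneg_right (le_max_right _ _) hε.le)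
  · intro ω₀ hω₀
    have hω₁ : ‖ω₀‖ = 1 := by simpa using hω₀
    have : ∃ η > 0, LocalBound vol U ψ u₀ (ball ω₀ η) := by
      by_cases h1 : ⟪ψ u₀, ω₀⟫ = 0
      · by_cases h2 : ∀ a, ⟪fderiv ℝ ψ u₀ a, ω₀⟫ = 0
        · rcases H ω₀ hω₁ h1 h2 with h | h
          · exact caseC_pos vol hN hU hψ u₀ hu₀ ω₀ h
          · exact caseC_neg vol hN hU hψ u₀ hu₀ ω₀ h
        · push Not at h2
          exact caseB vol hN hU hψ u₀ hu₀ ω₀ h2
      · exact caseA vol hU hψ u₀ hu₀ ω₀ h1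
    obtain ⟨η, hη, h⟩ := this
    exact ⟨ball ω₀ η, mem_nhdsWithin_of_mem_nhds (ball_mem_nhds ω₀ hη), h⟩

end Pool.Agent.Helper28.TP
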